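import Pool.Agent.Y800.FinImg

/-! A class function with few values on a large set, determined on translates by finitely many
values, has a period group of finite index. -/

set_option autoImplicit false
set_option linter.all false

namespace Pool.Agent.Q92.FP

open MeasureTheory Module Pool.Agent.Y800

section

variable {G : Type*} [Group G] {k : Type*}

/-- the group of the periods of the function `c` -/
def Per (c : G → k) : Subgroup G where
  carrier := {g | ∀ x, c (x * g) = c x}
  mul_mem' := by
    intro a b ha hb x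
    rw [← mul_assoc, hb, ha]
  one_mem' := by intro x; rw [mul_one]
  inv_mem' := by
    intro a ha x
    have h := ha (x * a⁻¹)
    rw [inv_mul_cancel_right] at h
    exact h.symm

theorem mem_Per {c : G → k} {g : G} : g ∈ Per c ↔ ∀ x, c (x * g) = c x := Iff.rfl

theorem Per_normal (c : G → k) (hcl : ∀ x y, c (x * y) = c (y * x)) : (Per c).Normal := by
  constructor
  intro n hn g x
  have h := hn (g⁻¹ * x * g)
  rw [show x * (g * n * g⁻¹) = (x * g * n) * g⁻¹ by group, hcl,
    show g⁻¹ * (x * g * n) = g⁻¹ * x * g * n by group, h, hcl]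
  congr 1
  group

theorem Per_closed [TopologicalSpace G] [IsTopologicalGroup G] [TopologicalSpace k] [T2Space k]
    {c : G → k} (hc : Continuous c) : IsClosed (Per c : Set G) := by
  have h : (Per c : Set G) = ⋂ x : G, {g : G | c (x * g) = c x} := by
    ext g
    simp only [SetLike.mem_coe, mem_Per, Set.mem_iInter, Set.mem_setOf_eq]
  rw [h]
  exact isClosed_iInter fun x => isClosed_eq (hc.comp (continuous_mul_left x)) continuous_const

end

section haar

variable {G : Type*} [Group G] [TopologicalSpace G] [IsTopologicalGroup G]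
  [CompactSpace G] [MeasurableSpace G] [BorelSpace G] {k : Type*}

theorem few_values (μ : Measure G) [IsProbabilityMeasure μ] [μ.IsMulLeftInvariant]
    (c : G → k) (N : ℕ) (s : Finset G) (hs : s.card ≤ N)
    (hs' : ∀ x y : G, (∀ g ∈ s, c (g * x) = c (g * y)) → ∀ g, c (g * x) = c (g * y))
    (T : Finset k) (d : ℝ) (hker : IsClosed (Per c : Set G))
    (hC : IsClosed {g : G | c g ∈ T}) (hμ : ENNReal.ofReal (1 - d) ≤ μ {g : G | c g ∈ T})
    (hd : d * N < 1) : Finite (G ⧸ Per c) := by
  classical
  have hd0 : 0 ≤ d := by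
    have h1 : ENNReal.ofReal (1 - d) ≤ 1 := hμ.trans prob_le_one
    rw [ENNReal.ofReal_le_one] at h1
    linarith
  set C : Set G := {g : G | c g ∈ T} with hCdef
  set D : Set G := {x | ∀ g ∈ s, g * x ∈ C} with hD
  have hDμ := inter_large μ C hC d hμ s
  have hdet : ∀ x y : G, (∀ g ∈ s, c (g * x) = c (g * y)) →
      (QuotientGroup.mk y : G ⧸ Per c) = QuotientGroup.mk x := by
    intro x y hxy
    have h1 := hs' x y hxy
    rw [QuotientGroup.eq]
    intro z
    have h2 := h1 (z * y⁻¹)
    rw [inv_mul_cancel_right] at h2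
    rw [← mul_assoc]
    exact h2
  let F : G → (s → k) := fun x g => c (g.1 * x)
  have hF : ∀ x ∈ D, F x ∈ (Fintype.piFinset fun _ : s => T) := by
    intro x hx
    rw [Fintype.mem_piFinset]
    intro g
    exact hx g.1 g.2
  have himg : ∃ t : Finset (G ⧸ Per c), ∀ x ∈ D, (QuotientGroup.mk x : G ⧸ Per c) ∈ t := by
    have hfin : (F '' D).Finite := (Finset.finite_toSet _).subset (by
      rintro _ ⟨x, hx, rfl⟩; exact hF x hx)
    choose! φ hφ using fun (y : s → k) (hy : y ∈ F '' D) => hy
    refine ⟨(hfin.toFinset).image fun y => QuotientGroup.mk (φ y), ?_⟩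
    intro x hx
    rw [Finset.mem_image]
    refine ⟨F x, by rw [Set.Finite.mem_toFinset]; exact ⟨x, hx, rfl⟩, ?_⟩
    have h1 := hφ (F x) ⟨x, hx, rfl⟩
    apply hdet
    intro g hg
    exact (congrFun h1.2 ⟨g, hg⟩).symm
  obtain ⟨t, htD⟩ := himg
  have hcoset : ∀ g : G, {x : G | (QuotientGroup.mk x : G ⧸ Per c) = QuotientGroup.mk g} =
      (fun x => g⁻¹ * x) ⁻¹' (Per c : Set G) := by
    intro g
    ext x
    simp only [Set.mem_setOf_eq, Set.mem_preimage, SetLike.mem_coe]
    rw [eq_comm, QuotientGroup.eq]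
  have h3 : μ D ≤ t.card * μ (Per c : Set G) := by
    have hsub : D ⊆ ⋃ q ∈ t, {x : G | (QuotientGroup.mk x : G ⧸ Per c) = q} := by
      intro x hx
      rw [Set.mem_iUnion₂]
      exact ⟨_, htD x hx, rfl⟩
    refine (measure_mono hsub).trans ((measure_biUnion_finset_le t _).trans ?_)
    have h1 : ∀ q ∈ t, μ {x : G | (QuotientGroup.mk x : G ⧸ Per c) = q} = μ (Per c : Set G) := by
      intro q _
      obtain ⟨g, rfl⟩ := QuotientGroup.mk_surjective q
      rw [hcoset, measure_preimage_mul]
    rw [Finset.sum_congr rfl h1, Finset.sum_const, nsmul_eq_mul]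
  set m : ℝ := (μ (Per c : Set G)).toReal with hm
  have hmt : μ (Per c : Set G) ≠ ⊤ := measure_ne_top μ _
  have hscard : (s.card : ℝ) ≤ (N : ℝ) := by exact_mod_cast hs
  have h4 : 1 - d * N ≤ t.card * m := by
    have h5 : ENNReal.ofReal (1 - s.card * d) ≤ ENNReal.ofReal (t.card * m) := by
      refine hDμ.trans (h3.trans ?_)
      rw [ENNReal.ofReal_mul (Nat.cast_nonneg _), ENNReal.ofReal_natCast, hm, ENNReal.ofReal_toReal hmt]
    rw [ENNReal.ofReal_le_ofReal_iff (by positivity)] at h5
    nlinarith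
  have hpos : 0 < 1 - d * N := by linarith
  have hm0 : 0 < m := by
    by_contra h
    have : (t.card : ℝ) * m ≤ 0 := mul_nonpos_of_nonneg_of_nonpos (Nat.cast_nonneg _) (not_lt.1 h)
    linarith
  have h6 : ∀ u : Finset (G ⧸ Per c), (u.card : ℝ) * m ≤ 1 := by
    intro u
    have h7 := coset_count μ (Per c) hker u
    have h8 := ENNReal.toReal_mono ENNReal.one_ne_top h7
    rwa [ENNReal.toReal_mul, ENNReal.toReal_natCast, ENNReal.toReal_one] at h8
  by_contra h
  have hinf : Infinite (G ⧸ Per c) := not_finite_iff_infinite.1 h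
  obtain ⟨M, hM⟩ := exists_nat_gt (1 / m)
  obtain ⟨u, hu⟩ := Infinite.exists_subset_card_eq (G ⧸ Per c) M
  have := h6 u
  rw [hu] at this
  rw [div_lt_iff₀ hm0] at hM
  linarith

end haar

end Pool.Agent.Q92.FP
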