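import Pool.Agent.Y800.FinImg
import Pool.Agent.Q92.FP.Vals

/-! The adjoint representation; elements whose adjoint image is unipotent. -/

set_option autoImplicit false
set_option linter.all false

namespace Pool.Agent.Q92.FP

open Matrix Module Polynomial Pool.Agent.Y800
open scoped Kronecker

section

variable {G : Type*} [Group G] {k : Type*} [Field k] {n : ℕ}

/-- the character of the adjoint representation -/
def adc (ρ : G →* GL (Fin n) k) (g : G) : k :=
  (ρ g : Matrix (Fin n) (Fin n) k).trace * (ρ g⁻¹ : Matrix (Fin n) (Fin n) k).trace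

/-- the adjoint representation -/
def Ad (ρ : G →* GL (Fin n) k) : G →* Matrix (Fin n × Fin n) (Fin n × Fin n) k where
  toFun g := (ρ g⁻¹ : Matrix (Fin n) (Fin n) k)ᵀ ⊗ₖ (ρ g : Matrix (Fin n) (Fin n) k)
  map_one' := by
    rw [inv_one, map_one, Units.val_one, Matrix.transpose_one, Matrix.one_kronecker_one]
  map_mul' := by
    intro g h
    rw [_root_.mul_inv_rev, map_mul, map_mul, Units.val_mul, Units.val_mul, Matrix.transpose_mul,
      Matrix.mul_kronecker_mul]

theorem trace_Ad (ρ : G →* GL (Fin n) k) (g : G) : (Ad ρ g).trace = adc ρ g := by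
  show ((ρ g⁻¹ : Matrix (Fin n) (Fin n) k)ᵀ ⊗ₖ (ρ g : Matrix (Fin n) (Fin n) k)).trace = _
  rw [Matrix.trace_kronecker, Matrix.trace_transpose, mul_comm]
  rfl

theorem Ad_vec (ρ : G →* GL (Fin n) k) (g : G) (X : Matrix (Fin n) (Fin n) k) :
    Ad ρ g *ᵥ X.vec = ((ρ g : Matrix (Fin n) (Fin n) k) * X * (ρ g⁻¹ : Matrix (Fin n) (Fin n) k)).vec := by
  show ((ρ g⁻¹ : Matrix (Fin n) (Fin n) k)ᵀ ⊗ₖ (ρ g : Matrix (Fin n) (Fin n) k)) *ᵥ _ = _
  rw [Matrix.kronecker_mulVec_vec, Matrix.transpose_transpose]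

theorem adc_comm (ρ : G →* GL (Fin n) k) (x y : G) : adc ρ (x * y) = adc ρ (y * x) := by
  rw [← trace_Ad, ← trace_Ad, map_mul, map_mul, Matrix.trace_mul_comm]

theorem adc_one (ρ : G →* GL (Fin n) k) : adc ρ 1 = (n : k) * n := by
  unfold adc
  rw [inv_one, map_one, Units.val_one, Matrix.trace_one, Fintype.card_fin]

theorem adc_inv (ρ : G →* GL (Fin n) k) (x : G) : adc ρ x⁻¹ = adc ρ x := by
  unfold adc
  rw [inv_inv, mul_comm]

theorem basis_adc (ρ : G →* GL (Fin n) k) : ∃ s : Finset G, s.card ≤ n ^ 4 ∧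
    ∀ x y : G, (∀ g ∈ s, adc ρ (g * x) = adc ρ (g * y)) → ∀ g, adc ρ (g * x) = adc ρ (g * y) := by
  obtain ⟨s, hs, hs'⟩ := exists_basis (k := k) (fun g => Ad ρ g)
  refine ⟨s, ?_, ?_⟩
  · refine hs.trans ?_
    rw [Module.finrank_matrix, Module.finrank_self, Fintype.card_prod, Fintype.card_fin, mul_one]
    apply le_of_eq
    ring
  · intro x y hxy
    have key := hs' ((Matrix.traceLinearMap (Fin n × Fin n) k k) ∘ₗ
      LinearMap.mulRight k (Ad ρ x - Ad ρ y)) ?_
    · intro g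
      have h := key g
      rw [LinearMap.comp_apply, LinearMap.mulRight_apply, Matrix.traceLinearMap_apply, mul_sub,
        Matrix.trace_sub, sub_eq_zero, ← map_mul, ← map_mul, trace_Ad, trace_Ad] at h
      exact h
    · intro g hg
      rw [LinearMap.comp_apply, LinearMap.mulRight_apply, Matrix.traceLinearMap_apply, mul_sub,
        Matrix.trace_sub, sub_eq_zero, ← map_mul, ← map_mul, trace_Ad, trace_Ad]
      exact hxy g hg

theorem Ad_unipotent [CharZero k] (ρ : G →* GL (Fin n) k) {h : G} (hh : h ∈ Per (adc ρ)) :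
    IsNilpotent (Ad ρ h - 1) := by
  have hpow : ∀ j : ℕ, ((Ad ρ h) ^ j).trace = (n : k) * n := by
    intro j
    have h1 : h ^ j ∈ Per (adc ρ) := pow_mem hh j
    have h2 := h1 1
    rw [one_mul, adc_one] at h2
    rw [← map_pow, trace_Ad, h2]
  let e : Fin n × Fin n ≃ Fin (n * n) := finProdFinEquiv
  let φ := Matrix.reindexAlgEquiv k k e
  have htr : ∀ A : Matrix (Fin n × Fin n) (Fin n × Fin n) k, (φ A).trace = A.trace := by
    intro A
    show ∑ i, A (e.symm i) (e.symm i) = ∑ i, A i i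
    exact Equiv.sum_comp e.symm fun i => A i i
  have hy : IsNilpotent (φ (Ad ρ h - 1)) := by
    refine nilpotent_of_trace (fun m hm _ => by exact_mod_cast (by omega : m ≠ 0)) fun f => ?_
    have h1 : aeval (φ (Ad ρ h - 1)) f * φ (Ad ρ h - 1) =
        φ (aeval (Ad ρ h) (f.comp (X - 1) * (X - 1))) := by
      have h2 : aeval (φ (Ad ρ h - 1)) f = φ (aeval (Ad ρ h - 1) f) :=
        (Polynomial.aeval_algHom_apply φ.toAlgHom _ _)
      rw [h2, ← map_mul]
      congr 1
      rw [map_mul, aeval_comp, map_sub, aeval_X, map_one]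
    rw [h1, htr]
    generalize hg : f.comp (X - 1) * (X - 1) = g
    have h3 : g.eval 1 = 0 := by rw [← hg]; simp
    rw [aeval_eq_sum_range, Matrix.trace_sum]
    simp only [Matrix.trace_smul, hpow, smul_eq_mul]
    rw [← Finset.sum_mul]
    rw [eval_eq_sum_range] at h3
    simp only [one_pow, mul_one] at h3
    rw [h3, zero_mul]
  obtain ⟨m, hm⟩ := hy
  refine ⟨m, ?_⟩
  rw [← map_pow] at hm
  exact (map_eq_zero_iff φ φ.injective).1 hm

theorem eigen_of_root {M : Matrix (Fin n) (Fin n) k} {a : k} (ha : M.charpoly.IsRoot a) :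
    ∃ v : Fin n → k, v ≠ 0 ∧ M *ᵥ v = a • v := by
  have h1 : (Matrix.scalar (Fin n) a - M).det = 0 := by
    rw [← Matrix.eval_charpoly]; exact ha
  obtain ⟨v, hv, hv0⟩ := Matrix.exists_mulVec_eq_zero_iff.2 h1
  refine ⟨v, hv, ?_⟩
  rw [Matrix.sub_mulVec, sub_eq_zero] at hv0
  rw [← hv0, Matrix.scalar_apply, ← Matrix.smul_one_eq_diagonal, Matrix.smul_mulVec, Matrix.one_mulVec]

/-- elements with unipotent adjoint image have only one eigenvalue -/
theorem single [IsAlgClosed k] [CharZero k] (hn : 0 < n) (ρ : G →* GL (Fin n) k) {h : G}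
    (hh : h ∈ Per (adc ρ)) :
    ∃ χ : k, χ ≠ 0 ∧ (ρ h : Matrix (Fin n) (Fin n) k).charpoly = (X - C χ) ^ n := by
  set M : Matrix (Fin n) (Fin n) k := (ρ h : Matrix (Fin n) (Fin n) k) with hM
  have hdet : M.det ≠ 0 := by
    have := (ρ h).isUnit
    rw [← hM, Matrix.isUnit_iff_isUnit_det] at this
    exact this.ne_zero
  have hroots : ∀ a, M.charpoly.IsRoot a → a ≠ 0 := by
    intro a ha h0
    subst h0
    have h1 : (Matrix.scalar (Fin n) (0 : k) - M).det = 0 := by
      rw [← Matrix.eval_charpoly]; exact ha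
    rw [map_zero, zero_sub, Matrix.det_neg] at h1
    rcases mul_eq_zero.1 h1 with h2 | h2
    · exact absurd h2 (pow_ne_zero _ (neg_ne_zero.2 one_ne_zero))
    · exact hdet h2
  obtain ⟨χ, hχ⟩ := IsAlgClosed.exists_root M.charpoly (by
    rw [Matrix.charpoly_degree_eq_dim, Fintype.card_fin]
    exact_mod_cast hn.ne')
  have hχ0 := hroots χ hχ
  obtain ⟨w, hw, hMw⟩ := eigen_of_root (M := Mᵀ) (a := χ) (by
    rw [Matrix.charpoly_transpose]; exact hχ)
  have hMw' : w ᵥ* M = χ • w := by rw [← hMw, Matrix.mulVec_transpose]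
  have hinv : M * (ρ h⁻¹ : Matrix (Fin n) (Fin n) k) = 1 := by
    rw [hM, ← Units.val_mul, ← map_mul, mul_inv_cancel, map_one, Units.val_one]
  have hwinv : w ᵥ* (ρ h⁻¹ : Matrix (Fin n) (Fin n) k) = χ⁻¹ • w := by
    have h1 : (w ᵥ* M) ᵥ* (ρ h⁻¹ : Matrix (Fin n) (Fin n) k) = w := by
      rw [Matrix.vecMul_vecMul, hinv, Matrix.vecMul_one]
    rw [hMw', Matrix.smul_vecMul] at h1
    rw [← h1, smul_smul, inv_mul_cancel₀ hχ0, one_smul, h1]
  have hall : ∀ a, M.charpoly.IsRoot a → a = χ := by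
    intro a ha
    obtain ⟨v, hv, hMv⟩ := eigen_of_root ha
    set Y := (Matrix.vecMulVec v w) with hY
    have hYne : Y.vec ≠ 0 := by
      intro h0
      obtain ⟨i, hi⟩ := Function.ne_iff.1 hv
      obtain ⟨j, hj⟩ := Function.ne_iff.1 hw
      have := congrFun h0 (j, i)
      rw [hY] at this
      simp only [Matrix.vec, Matrix.vecMulVec_apply, Pi.zero_apply, mul_eq_zero] at this
      rcases this with h1 | h1
      · exact hi h1
      · exact hj h1
    have h1 : (Ad ρ h - 1) *ᵥ Y.vec = (a * χ⁻¹ - 1) • Y.vec := by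
      rw [Matrix.sub_mulVec, Matrix.one_mulVec, Ad_vec, sub_smul, one_smul, hY, Matrix.mul_vecMulVec,
        Matrix.vecMulVec_mul, ← hM, hMv, hwinv]
      congr 1
      ext ⟨j, i⟩
      simp only [Matrix.vec, Matrix.vecMulVec_apply, Pi.smul_apply, smul_eq_mul]
      ring
    have h2 : ∀ m : ℕ, (Ad ρ h - 1) ^ m *ᵥ Y.vec = (a * χ⁻¹ - 1) ^ m • Y.vec := by
      intro m
      induction m with
      | zero => rw [pow_zero, Matrix.one_mulVec, pow_zero, one_smul]
      | succ m ih => rw [pow_succ, ← Matrix.mulVec_mulVec, h1, Matrix.mulVec_smul, ih, smul_smul,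
          pow_succ, mul_comm]
    obtain ⟨m, hm⟩ := Ad_unipotent ρ hh
    have h3 := h2 m
    rw [hm, Matrix.zero_mulVec] at h3
    have h4 := (smul_eq_zero.1 h3.symm).resolve_right hYne
    have h5 : a * χ⁻¹ = 1 := sub_eq_zero.1 (IsNilpotent.eq_zero ⟨m, h4⟩)
    field_simp at h5
    exact h5
  refine ⟨χ, hχ0, ?_⟩
  have h6 : M.charpoly.roots = Multiset.replicate n χ := by
    rw [Multiset.eq_replicate]
    refine ⟨?_, ?_⟩
    · rw [← (IsAlgClosed.splits M.charpoly).natDegree_eq_card_roots, Matrix.charpoly_natDegree_eq_dim,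
        Fintype.card_fin]
    · intro b hb
      exact hall b ((mem_roots M.charpoly_monic.ne_zero).1 hb)
  rw [(IsAlgClosed.splits M.charpoly).eq_prod_roots_of_monic M.charpoly_monic, h6,
    Multiset.map_replicate, Multiset.prod_replicate]

theorem trace_single [IsAlgClosed k] {M : Matrix (Fin n) (Fin n) k} {χ : k}
    (h : M.charpoly = (X - C χ) ^ n) : M.trace = n * χ := by
  rw [Matrix.trace_eq_sum_roots_charpoly, h, roots_pow, roots_X_sub_C, Multiset.sum_nsmul,
    Multiset.sum_singleton, nsmul_eq_mul]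

theorem det_single [IsAlgClosed k] {M : Matrix (Fin n) (Fin n) k} {χ : k}
    (h : M.charpoly = (X - C χ) ^ n) : M.det = χ ^ n := by
  rw [Matrix.det_eq_prod_roots_charpoly, h, roots_pow, roots_X_sub_C, Multiset.prod_nsmul,
    Multiset.prod_singleton]

end

end Pool.Agent.Q92.FP
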