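import Pool.Agent.Q92.FP.Twist

/-! Representations with few Rankin-Selberg coefficients and a central character of integral weight
are Artin representations twisted by a power of the cyclotomic character. -/

set_option autoImplicit false
set_option linter.all false

namespace Pool.Agent.Q92.FP

open NumberField Filter Topology Matrix Polynomial
open Pool.Agent.Y800

variable {ℓ : ℕ} [hℓ : Fact ℓ.Prime] {n : ℕ}

/-- the power of the cyclotomic character -/
noncomputable def cycPow (ℓ : ℕ) [Fact ℓ.Prime] (k : ℤ) : GQ →* (PadicAlgCl ℓ)ˣ :=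
  (zpowGroupHom k).comp (cyc ℓ)

theorem cycPow_apply (k : ℤ) (g : GQ) : cycPow ℓ k g = cyc ℓ g ^ k := rfl

theorem continuous_cycPow (k : ℤ) : Continuous (cycPow ℓ k) := by
  have h : (fun g => cycPow ℓ k g) = fun g => cyc ℓ g ^ k := rfl
  show Continuous fun g => cycPow ℓ k g
  rw [h]
  exact (continuous_cyc ℓ).zpow k

/-- the value at the inverse of an arithmetic Frobenius element -/
theorem cycPow_frob (ι : PadicAlgCl ℓ →+* ℂ) (k : ℤ) {p : ℕ} (hp : p.Prime) (hpl : p ≠ ℓ)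
    {P : Ideal ZBar} (hP : P.IsPrime) (hpP : (p : ZBar) ∈ P) {σ : GQ}
    (hσ : ∀ x : ZBar, σ • x - x ^ p ∈ P) : ι (cycPow ℓ k σ⁻¹) = (p : ℂ) ^ (-k) := by
  rw [cycPow_apply, map_inv, Units.val_zpow_eq_zpow_val, map_zpow₀, Units.val_inv_eq_inv_val,
    cyc_frobAt hp hpl hP hpP hσ, map_inv₀, map_natCast, _root_.inv_zpow, _root_.zpow_neg]

theorem det_char (ρ : GQ →* GL (Fin n) (PadicAlgCl ℓ)) (hρ : Continuous ρ)
    (ι : PadicAlgCl ℓ →+* ℂ) (S : ℕ → Multiset ℂ) (T : Finset ℕ) (k : ℤ) (m : ℕ)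
    (hS : ∀ p : ℕ, p.Prime → p ∉ T → p ≠ ℓ → ∀ P : Ideal ZBar, P.IsMaximal → (p : ZBar) ∈ P →
      ∀ σ : GQ, (∀ x : ZBar, σ • x - x ^ p ∈ P) →
      ((ρ σ⁻¹ : Matrix (Fin n) (Fin n) (PadicAlgCl ℓ)).charpoly.map ι).roots = S p)
    (hω : ∀ p : ℕ, p.Prime → p ∉ T → (S p).prod ^ m = (p : ℂ) ^ ((n : ℤ) * k * m)) (g : GQ) :
    (ρ g : Matrix (Fin n) (Fin n) (PadicAlgCl ℓ)).det ^ m *
      ((cycPow ℓ ((n : ℤ) * k * m) g : (PadicAlgCl ℓ)ˣ) : PadicAlgCl ℓ) = 1 := by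
  classical
  refine closed_univ {g | (ρ g : Matrix (Fin n) (Fin n) (PadicAlgCl ℓ)).det ^ m *
      ((cycPow ℓ ((n : ℤ) * k * m) g : (PadicAlgCl ℓ)ˣ) : PadicAlgCl ℓ) = 1} ?_ ?_ (insert ℓ T) ?_ g
  · refine isClosed_eq ?_ continuous_const
    exact ((Units.continuous_val.comp hρ).matrix_det.pow m).mul
      (Units.continuous_val.comp (continuous_cycPow _))
  · intro σ hσ τ
    have h1 : (ρ (τ * σ * τ⁻¹) : Matrix (Fin n) (Fin n) (PadicAlgCl ℓ)).det =
        (ρ σ : Matrix (Fin n) (Fin n) (PadicAlgCl ℓ)).det := by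
      have h2 : (ρ τ : Matrix (Fin n) (Fin n) (PadicAlgCl ℓ)).det *
          (ρ τ⁻¹ : Matrix (Fin n) (Fin n) (PadicAlgCl ℓ)).det = 1 := by
        rw [← Matrix.det_mul, ← Units.val_mul, ← map_mul, mul_inv_cancel, map_one, Units.val_one,
          Matrix.det_one]
      rw [map_mul, map_mul, Units.val_mul, Units.val_mul, Matrix.det_mul, Matrix.det_mul, mul_right_comm,
        h2, one_mul]
    have h3 : cycPow ℓ ((n : ℤ) * k * m) (τ * σ * τ⁻¹) = cycPow ℓ ((n : ℤ) * k * m) σ := by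
      rw [map_mul, map_mul, map_inv, mul_comm, inv_mul_cancel_left]
    show _ = _
    rw [h1, h3]
    exact hσ
  · intro p hp hpB P hP hpP σ hσ
    rw [Finset.mem_insert, not_or] at hpB
    have ha := arith_of_geom hσ
    have h1 := hS p hp hpB.2 hpB.1 P hP hpP σ⁻¹ ha
    rw [inv_inv] at h1
    have h2 := det_roots ι (ρ σ : Matrix (Fin n) (Fin n) (PadicAlgCl ℓ))
    rw [h1] at h2
    have h3 := cycPow_frob ι ((n : ℤ) * k * m) hp hpB.1 hP.isPrime hpP ha
    rw [inv_inv] at h3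
    show _ = _
    apply ι.injective
    rw [map_mul, map_pow, h2, h3, hω p hp hpB.2, map_one, ← zpow_add₀ (by exact_mod_cast hp.ne_zero)]
    simp

/-- the twist has open kernel -/
theorem open_ker_twist (hn : 0 < n) (ρ : GQ →* GL (Fin n) (PadicAlgCl ℓ)) (hρ : Continuous ρ)
    (hss : IsSemisimpleRep ρ) (ho : IsOpen (Per (adc ρ) : Set GQ)) (k : ℤ) (m : ℕ) (hm : 0 < m)
    (hdet : ∀ g : GQ, (ρ g : Matrix (Fin n) (Fin n) (PadicAlgCl ℓ)).det ^ m *
      ((cycPow ℓ ((n : ℤ) * k * m) g : (PadicAlgCl ℓ)ˣ) : PadicAlgCl ℓ) = 1) :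
    IsOpen ((twist ρ (cycPow ℓ k)).ker : Set GQ) := by
  classical
  have hnm : n * m ≠ 0 := Nat.mul_ne_zero hn.ne' hm.ne'
  set R : Finset (PadicAlgCl ℓ) := (nthRoots (n * m) (1 : PadicAlgCl ℓ)).toFinset.erase 1 with hR
  let i0 : Fin n := ⟨0, hn⟩
  let e : GQ → PadicAlgCl ℓ := fun g =>
    (cycPow ℓ k g : PadicAlgCl ℓ) * (ρ g : Matrix (Fin n) (Fin n) (PadicAlgCl ℓ)) i0 i0
  have he : Continuous e := by
    refine (Units.continuous_val.comp (continuous_cycPow k)).mul ?_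
    exact (Units.continuous_val.comp hρ).matrix_elem i0 i0
  have hV : IsOpen ((Per (adc ρ) : Set GQ) ∩ (e ⁻¹' (R : Set (PadicAlgCl ℓ)))ᶜ) :=
    ho.inter ((Finset.finite_toSet R).isClosed.preimage he).isOpen_compl
  have hsub : (Per (adc ρ) : Set GQ) ∩ (e ⁻¹' (R : Set (PadicAlgCl ℓ)))ᶜ ⊆
      ((twist ρ (cycPow ℓ k)).ker : Set GQ) := by
    rintro h ⟨hh, hhe⟩
    obtain ⟨χ, hχ0, hχ⟩ := scalar_of_Per hn ρ hss hh
    have h1 : e h = (cycPow ℓ k h : PadicAlgCl ℓ) * χ := by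
      show _ * _ = _
      rw [hχ, Matrix.smul_apply, Matrix.one_apply_eq, smul_eq_mul, mul_one]
    have h2 : (e h) ^ (n * m) = 1 := by
      have h3 := hdet h
      rw [hχ, Matrix.det_smul, Matrix.det_one, mul_one, Fintype.card_fin, cycPow_apply,
        Units.val_zpow_eq_zpow_val] at h3
      rw [h1, mul_pow, cycPow_apply, Units.val_zpow_eq_zpow_val, pow_mul χ, mul_comm, ← h3]
      congr 1
      rw [← zpow_natCast, ← _root_.zpow_mul]
      congr 1
      push_cast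
      ring
    have h4 : e h = 1 := by
      by_contra hne
      apply hhe
      show e h ∈ (R : Set (PadicAlgCl ℓ))
      rw [hR, Finset.mem_coe, Finset.mem_erase, Multiset.mem_toFinset,
        mem_nthRoots (Nat.pos_of_ne_zero hnm)]
      exact ⟨hne, h2⟩
    rw [SetLike.mem_coe, MonoidHom.mem_ker]
    apply Units.ext
    rw [coe_twist, hχ, smul_smul, ← h1, h4, one_smul, Units.val_one]
  apply Subgroup.isOpen_of_mem_nhds (g := 1)
  refine mem_of_superset (hV.mem_nhds ⟨(Per (adc ρ)).one_mem, ?_⟩) hsub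
  show ¬ e 1 ∈ (R : Set (PadicAlgCl ℓ))
  have h5 : e 1 = 1 := by
    show (cycPow ℓ k 1 : PadicAlgCl ℓ) * (ρ 1 : Matrix (Fin n) (Fin n) (PadicAlgCl ℓ)) i0 i0 = 1
    rw [map_one, map_one, Units.val_one, Units.val_one, Matrix.one_apply_eq, mul_one]
  rw [h5, hR]
  simp

theorem continuous_twist {k : Type*} [NontriviallyNormedField k] (ρ : GQ →* GL (Fin n) k)
    (hρ : Continuous ρ) (X : GQ →* kˣ) (hX : Continuous X) : Continuous (twist ρ X) := by
  have h1 : Continuous (scal k n) := Continuous.units_map _ (continuous_algebraMap k _)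
  exact (h1.comp hX).mul hρ

end Pool.Agent.Q92.FP
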