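import Pool.Agent.Q92.FP.Main

/-! The main theorem for the absolute Galois group of `ℚ`. -/

set_option autoImplicit false
set_option linter.all false

namespace Pool.Agent.Q92.FP

open NumberField Filter Topology IsDedekindDomain Matrix MeasureTheory
open Pool.Agent.Y800 Pool.Agent.W401.Cheb Pool.Agent.W540.BE

variable {ℓ : ℕ} [Fact ℓ.Prime] {n : ℕ}

theorem adc_conj (ρ : GQ →* GL (Fin n) (PadicAlgCl ℓ)) (σ τ : GQ) :
    adc ρ (τ * σ * τ⁻¹) = adc ρ σ := by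
  rw [adc_comm, ← mul_assoc, inv_mul_cancel, one_mul]

theorem cont_adc (ρ : GQ →* GL (Fin n) (PadicAlgCl ℓ)) (hρ : Continuous ρ) : Continuous (adc ρ) := by
  have h1 : Continuous fun g : GQ => (ρ g : Matrix (Fin n) (Fin n) (PadicAlgCl ℓ)).trace :=
    (Units.continuous_val.comp hρ).matrix_trace
  exact h1.mul (h1.comp continuous_inv)

/-- few values of the coefficients: the group of periods is open -/
theorem open_Per (ρ : GQ →* GL (Fin n) (PadicAlgCl ℓ)) (hρ : Continuous ρ)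
    (ι : PadicAlgCl ℓ →+* ℂ) (co : ℕ → ℂ) (B : Finset ℕ) (F : Finset ℂ) (Z : Set ℕ) (c : ℝ)
    (hn : 0 < n) (hc : c * n ^ 4 < 1)
    (hZ : ∀ᶠ N : ℕ in atTop, (cnt Z N : ℝ) ≤ c * (Nat.primeCounting N : ℝ))
    (hF : ∀ p : ℕ, p.Prime → p ∉ Z → co p ∈ F)
    (hfrob : ∀ p : ℕ, p.Prime → p ∉ B → ∀ P : Ideal ZBar, P.IsMaximal → (p : ZBar) ∈ P →
      ∀ σ : GQ, (∀ x : ZBar, σ • x - x ^ p ∈ P) → ι (adc ρ σ) = co p) :
    IsOpen (Per (adc ρ) : Set GQ) := by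
  classical
  have hn4 : (0 : ℝ) < (n : ℝ) ^ 4 := by positivity
  obtain ⟨c', hcc', hc'⟩ : ∃ c', c < c' ∧ c' * n ^ 4 < 1 := by
    have h1 : c < 1 / (n : ℝ) ^ 4 := by rw [lt_div_iff₀ hn4]; exact hc
    obtain ⟨c', h2, h3⟩ := exists_between h1
    exact ⟨c', h2, by rwa [lt_div_iff₀ hn4] at h3⟩
  have hZB := cnt_add_finite hcc' hZ B
  set F' : Finset (PadicAlgCl ℓ) := F.preimage ι ι.injective.injOn with hF'
  obtain ⟨m, hm, μ, i1, i2, i3⟩ := exists_haar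
  have hCcl : IsClosed {g : GQ | adc ρ g ∈ F'} :=
    (Finset.finite_toSet F').isClosed.preimage (cont_adc ρ hρ)
  have hμ := haar_ge μ {g : GQ | adc ρ g ∈ F'} hCcl
    (fun σ hσ τ => by
      have h : adc ρ σ ∈ F' := hσ
      rw [← adc_conj ρ σ τ] at h
      exact h) (Z ∪ B) c' hZB
    (fun p hp hpZ P hP hpP σ hσ => by
      have h1 := hfrob p hp (fun h => hpZ (Or.inr h)) P hP hpP σ⁻¹ (arith_of_geom hσ)
      rw [adc_inv] at h1
      have h2 := hF p hp fun h => hpZ (Or.inl h)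
      rw [← h1] at h2
      show adc ρ σ ∈ F'
      rw [hF', Finset.mem_preimage]
      exact h2)
  obtain ⟨s, hs, hs'⟩ := basis_adc ρ
  have hfin := few_values μ (adc ρ) (n ^ 4) s hs hs' F' c' (Per_closed (cont_adc ρ hρ)) hCcl hμ
    (by push_cast; exact hc')
  haveI : (Per (adc ρ)).FiniteIndex := Subgroup.finiteIndex_of_finite_quotient
  exact Subgroup.isOpen_of_isClosed_of_finiteIndex _ (Per_closed (cont_adc ρ hρ))

/-- a power of every element is scalar -/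
theorem exists_pow_scalar (hn : 0 < n) (ρ : GQ →* GL (Fin n) (PadicAlgCl ℓ))
    (hss : IsSemisimpleRep ρ) (ho : IsOpen (Per (adc ρ) : Set GQ)) :
    ∃ k : ℕ, k ≠ 0 ∧ ∀ g : GQ, ∃ χ : PadicAlgCl ℓ,
      (ρ g : Matrix (Fin n) (Fin n) (PadicAlgCl ℓ)) ^ k = χ • 1 := by
  haveI hnor : (Per (adc ρ)).Normal := Per_normal _ (adc_comm ρ)
  haveI : Finite (GQ ⧸ Per (adc ρ)) := Subgroup.quotient_finite_of_isOpen _ ho
  refine ⟨Nat.card (GQ ⧸ Per (adc ρ)), Nat.card_pos.ne', fun g => ?_⟩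
  have h3 : g ^ Nat.card (GQ ⧸ Per (adc ρ)) ∈ Per (adc ρ) := by
    rw [← QuotientGroup.eq_one_iff, QuotientGroup.mk_pow]
    exact pow_card_eq_one'
  obtain ⟨χ, -, hχ⟩ := scalar_of_Per hn ρ hss h3
  refine ⟨χ, ?_⟩
  rw [← hχ, map_pow, Units.val_pow_eq_pow_val]

/-- eigenvalues of a matrix with a scalar power -/
theorem pow_eigen {M : Matrix (Fin n) (Fin n) (PadicAlgCl ℓ)} {k : ℕ} {χ : PadicAlgCl ℓ}
    (h : M ^ k = χ • 1) {a : PadicAlgCl ℓ} (ha : a ∈ M.charpoly.roots) : a ^ k = χ := by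
  obtain ⟨v, hv, hMv⟩ := eigen_of_root ((Polynomial.mem_roots M.charpoly_monic.ne_zero).1 ha)
  have h5 : ∀ j : ℕ, M ^ j *ᵥ v = a ^ j • v := by
    intro j
    induction j with
    | zero => rw [pow_zero, Matrix.one_mulVec, pow_zero, one_smul]
    | succ j ih =>
      rw [pow_succ, ← Matrix.mulVec_mulVec, hMv, Matrix.mulVec_smul, ih, smul_smul, pow_succ,
        mul_comm]
  have h7 := h5 k
  rw [h, Matrix.smul_mulVec, Matrix.one_mulVec] at h7
  have h8 : (χ - a ^ k) • v = 0 := by rw [sub_smul, h7, sub_self]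
  exact (sub_eq_zero.1 ((smul_eq_zero.1 h8).resolve_right hv)).symm

/-- every prime number outside `B` has a Frobenius element -/
theorem exists_frobenius {p : ℕ} (hp : p.Prime) : ∃ (P : Ideal ZBar) (σ : GQ), P.IsMaximal ∧
    (p : ZBar) ∈ P ∧ ∀ x : ZBar, σ • x - x ^ p ∈ P := by
  obtain ⟨σ, Q, hQ, hQv, hQσ⟩ := Pool.Agent.W540.BE.exists_isFrob ℚ (place hp)
  rw [absNorm_place] at hQσ
  refine ⟨Q, σ, hQ, ?_, hQσ⟩
  have h1 : (p : 𝓞 ℚ) ∈ (place hp).asIdeal := Ideal.mem_span_singleton_self _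
  rw [← hQv, Ideal.mem_comap, map_natCast] at h1
  exact h1

/-- irreducibility from the mean value -/
theorem irreducible_of_mean (hn : 0 < n) (ρ : GQ →* GL (Fin n) (PadicAlgCl ℓ))
    (hss : IsSemisimpleRep ρ) (ho : IsOpen (Per (adc ρ) : Set GQ))
    (ι : PadicAlgCl ℓ →+* ℂ) (co : ℕ → ℂ) (T B : Finset ℕ) (hTB : T ⊆ B)
    (hfrob : ∀ p : ℕ, p.Prime → p ∉ B → ∀ P : Ideal ZBar, P.IsMaximal → (p : ZBar) ∈ P →
      ∀ σ : GQ, (∀ x : ZBar, σ • x - x ^ p ∈ P) → ι (adc ρ σ) = co p)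
    (hmean : Tendsto (fun N : ℕ => (∑ p ∈ primesUpTo T N, co p) / (Nat.primeCounting N : ℂ)) atTop
      (𝓝 1))
    (U : Submodule (PadicAlgCl ℓ) (Fin n → PadicAlgCl ℓ)) (hU : Stable ρ U) : U = ⊥ ∨ U = ⊤ := by
  classical
  by_contra hcon
  push Not at hcon
  haveI hnor : (Per (adc ρ)).Normal := Per_normal _ (adc_comm ρ)
  haveI : Finite (GQ ⧸ Per (adc ρ)) := Subgroup.quotient_finite_of_isOpen _ ho
  letI : Fintype (GQ ⧸ Per (adc ρ)) := Fintype.ofFinite _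
  obtain ⟨M, hM2, hM⟩ := mean_ge hn ρ hss U hU hcon.1 hcon.2
  have hlim := mean_primes (Per (adc ρ)) ho (fun q => ι (AdQ hn ρ hss q).trace)
    (fun a g => by
      show ι _ = ι _
      rw [map_mul, map_mul, Matrix.trace_mul_comm, ← mul_assoc, ← map_mul, inv_mul_cancel, map_one,
        one_mul]) co T B hTB
    (fun p hp hpB P hP hpP σ hσ => by
      show ι _ = _
      rw [AdQ_mk]
      exact hfrob p hp hpB P hP hpP σ hσ)
  have huniq := tendsto_nhds_unique hmean hlim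
  have h1 : (Nat.card (GQ ⧸ Per (adc ρ)) : ℂ)⁻¹ * ∑ᶠ q, ι (AdQ hn ρ hss q).trace = (M : ℂ) := by
    rw [finsum_eq_sum_of_fintype, Nat.card_eq_fintype_card, ← map_sum, ← map_natCast ι,
      ← map_inv₀, ← map_mul, hM, map_natCast]
  rw [h1] at huniq
  have h2 : (1 : ℕ) = M := by exact_mod_cast huniq
  omega

theorem coeff_eq {ρ : GQ →* GL (Fin n) (PadicAlgCl ℓ)} {ι : PadicAlgCl ℓ →+* ℂ} {A : Multiset ℂ}
    {g : GQ} (h : (((ρ g⁻¹ : Matrix (Fin n) (Fin n) (PadicAlgCl ℓ))).charpoly.map ι).roots = A) :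
    A.sum * (A.map fun a => a⁻¹).sum = ι (adc ρ g) ∧
      A = (ρ g⁻¹ : Matrix (Fin n) (Fin n) (PadicAlgCl ℓ)).charpoly.roots.map ι := by
  have h1 : A = (ρ g⁻¹ : Matrix (Fin n) (Fin n) (PadicAlgCl ℓ)).charpoly.roots.map ι := by
    rw [← h]
    exact (IsAlgClosed.splits (ρ g⁻¹ : Matrix (Fin n) (Fin n) (PadicAlgCl ℓ)).charpoly).roots_map ι
  refine ⟨?_, h1⟩
  have h2 : (ρ g⁻¹ : Matrix (Fin n) (Fin n) (PadicAlgCl ℓ)) *
      (ρ g : Matrix (Fin n) (Fin n) (PadicAlgCl ℓ)) = 1 := by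
    rw [← Units.val_mul, ← map_mul, inv_mul_cancel, map_one, Units.val_one]
  have h3 := trace_inv_roots _ _ h2
  have h4 := Matrix.trace_eq_sum_roots_charpoly
    (ρ g⁻¹ : Matrix (Fin n) (Fin n) (PadicAlgCl ℓ))
  unfold adc
  rw [h3, h4, h1, map_mul, map_multiset_sum, map_multiset_sum, Multiset.map_map, Multiset.map_map,
    mul_comm]
  congr 2
  refine Multiset.map_congr rfl fun a _ => ?_
  simp

end Pool.Agent.Q92.FP
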