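import Pool.Agent.Q92.FP.Mean
import Pool.Agent.Y800.Rat
import Pool.Agent.Y800.Two
import Pool.Agent.W540.BE.Freq

/-! Mean values over the prime numbers, and the main theorem. -/

set_option autoImplicit false
set_option linter.all false

namespace Pool.Agent.Q92.FP

open NumberField Filter Topology IsDedekindDomain Matrix
open Pool.Agent.Y800 Pool.Agent.W401.Cheb Pool.Agent.W540.BE

/-- the prime numbers up to `N` outside `T` -/
def primesUpTo (T : Finset ℕ) (N : ℕ) : Finset ℕ :=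
  (Finset.range (N + 1)).filter fun p => p.Prime ∧ p ∉ T

/-- the place of a prime number -/
noncomputable def place {p : ℕ} (hp : p.Prime) : HeightOneSpectrum (𝓞 ℚ) :=
  ⟨Pool.Agent.W571.FM.pl p, Pool.Agent.W571.FM.pl_prime hp, Pool.Agent.W571.FM.pl_ne hp⟩

theorem absNorm_place {p : ℕ} (hp : p.Prime) : Ideal.absNorm (place hp).asIdeal = p :=
  Pool.Agent.W571.FM.absNorm_pl p

theorem absNorm_prime (v : HeightOneSpectrum (𝓞 ℚ)) : (Ideal.absNorm v.asIdeal).Prime := by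
  obtain ⟨p, hp, hpv⟩ := exists_prime v
  rw [asIdeal_eq hp hpv, Pool.Agent.W571.FM.absNorm_pl]
  exact hp

theorem mem_of_absNorm (v : HeightOneSpectrum (𝓞 ℚ)) :
    ((Ideal.absNorm v.asIdeal : ℕ) : 𝓞 ℚ) ∈ v.asIdeal := by
  obtain ⟨p, hp, hpv⟩ := exists_prime v
  have : Ideal.absNorm v.asIdeal = p := by rw [asIdeal_eq hp hpv, Pool.Agent.W571.FM.absNorm_pl]
  rw [this]; exact hpv

theorem absNorm_inj {v w : HeightOneSpectrum (𝓞 ℚ)}
    (h : Ideal.absNorm v.asIdeal = Ideal.absNorm w.asIdeal) : v = w := by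
  apply HeightOneSpectrum.ext
  have h1 := asIdeal_eq (absNorm_prime v) (mem_of_absNorm v)
  have h2 := asIdeal_eq (absNorm_prime w) (mem_of_absNorm w)
  rw [h1, h2, h]

theorem mean_primes (U : Subgroup GQ) [U.Normal] (hU : IsOpen (U : Set GQ)) [Finite (GQ ⧸ U)]
    (ψ : GQ ⧸ U → ℂ) (hψ : ∀ a g, ψ (g * a * g⁻¹) = ψ a) (c : ℕ → ℂ) (T B : Finset ℕ)
    (hTB : T ⊆ B)
    (hc : ∀ p : ℕ, p.Prime → p ∉ B → ∀ P : Ideal ZBar, P.IsMaximal → (p : ZBar) ∈ P → ∀ σ : GQ,
      (∀ x : ZBar, σ • x - x ^ p ∈ P) → ψ (QuotientGroup.mk σ) = c p) :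
    Tendsto (fun N : ℕ => (∑ p ∈ primesUpTo T N, c p) / (Nat.primeCounting N : ℂ)) atTop
      (𝓝 ((Nat.card (GQ ⧸ U) : ℂ)⁻¹ * ∑ᶠ q, ψ q)) := by
  classical
  choose σ hσ using fun v : HeightOneSpectrum (𝓞 ℚ) => Pool.Agent.W540.BE.exists_isFrob ℚ v
  have key := cheb_mean U hU ψ hψ σ hσ
  set c' : ℕ → ℂ := fun p => if p ∈ T then 0 else c p with hc'
  have hsum : ∀ N, ∑ p ∈ primesUpTo T N, c p = ∑ v ∈ upto ℚ N, c' (Ideal.absNorm v.asIdeal) := by
    intro N
    symm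
    have h1 : ∑ p ∈ primesUpTo T N, c p = ∑ p ∈ (Finset.range (N + 1)).filter Nat.Prime, c' p := by
      rw [primesUpTo, Finset.sum_filter, Finset.sum_filter]
      refine Finset.sum_congr rfl fun p _ => ?_
      by_cases hp : p.Prime <;> by_cases hT : p ∈ T <;> simp [hp, hT, hc']
    rw [h1]
    refine Finset.sum_nbij (fun v => Ideal.absNorm v.asIdeal) ?_ ?_ ?_ (fun _ _ => rfl)
    · intro v hv
      rw [mem_upto] at hv
      rw [Finset.mem_filter, Finset.mem_range]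
      exact ⟨Nat.lt_succ_of_le hv, absNorm_prime v⟩
    · intro v _ w _ h
      exact absNorm_inj h
    · intro p hp
      rw [Finset.mem_coe, Finset.mem_filter, Finset.mem_range] at hp
      refine ⟨place hp.2, ?_, absNorm_place hp.2⟩
      rw [Finset.mem_coe, mem_upto]
      show Ideal.absNorm (place hp.2).asIdeal ≤ N
      rw [absNorm_place]
      exact Nat.lt_succ_iff.1 hp.1
  set d : HeightOneSpectrum (𝓞 ℚ) → ℂ := fun v =>
    ψ (QuotientGroup.mk (σ v)) - c' (Ideal.absNorm v.asIdeal) with hd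
  have hd0 : ∀ v, Ideal.absNorm v.asIdeal ∉ B → d v = 0 := by
    intro v hv
    obtain ⟨Q, hQ, hQv, hQσ⟩ := hσ v
    have hmem : ((Ideal.absNorm v.asIdeal : ℕ) : ZBar) ∈ Q := by
      have := mem_of_absNorm v
      generalize Ideal.absNorm v.asIdeal = m at this ⊢
      rw [← hQv, Ideal.mem_comap, map_natCast] at this
      exact this
    show ψ (QuotientGroup.mk (σ v)) - (if Ideal.absNorm v.asIdeal ∈ T then 0 else
      c (Ideal.absNorm v.asIdeal)) = 0
    rw [hc _ (absNorm_prime v) hv Q hQ hmem (σ v) hQσ, if_neg fun h => hv (hTB h), sub_self]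
  set S0 := (upto ℚ (B.sup id)).filter fun v => Ideal.absNorm v.asIdeal ∈ B with hS0
  have hbd : ∀ N, ‖∑ v ∈ upto ℚ N, d v‖ ≤ ∑ v ∈ S0, ‖d v‖ := by
    intro N
    have h1 : ∑ v ∈ upto ℚ N, d v = ∑ v ∈ (upto ℚ N).filter (fun v => Ideal.absNorm v.asIdeal ∈ B), d v := by
      rw [Finset.sum_filter]
      refine Finset.sum_congr rfl fun v _ => ?_
      split_ifs with h
      · rfl
      · exact hd0 v h
    rw [h1]
    refine (norm_sum_le _ _).trans (Finset.sum_le_sum_of_subset_of_nonneg ?_ fun _ _ _ => norm_nonneg _)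
    intro v hv
    rw [Finset.mem_filter] at hv
    rw [hS0, Finset.mem_filter, mem_upto]
    exact ⟨Finset.le_sup (f := id) hv.2, hv.2⟩
  have hz : Tendsto (fun N : ℕ => (∑ v ∈ upto ℚ N, d v) / (Nat.primeCounting N : ℂ)) atTop (𝓝 0) := by
    rw [tendsto_zero_iff_norm_tendsto_zero]
    have h2 : Tendsto (fun N : ℕ => (∑ v ∈ S0, ‖d v‖) / (Nat.primeCounting N : ℝ)) atTop (𝓝 0) :=
      tendsto_const_nhds.div_atTop tendsto_pi
    refine squeeze_zero (fun _ => norm_nonneg _) (fun N => ?_) h2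
    rw [norm_div, Complex.norm_natCast]
    exact div_le_div_of_nonneg_right (hbd N) (Nat.cast_nonneg _)
  have h3 := key.sub hz
  rw [sub_zero] at h3
  refine h3.congr fun N => ?_
  rw [← sub_div, ← Finset.sum_sub_distrib, hsum]
  congr 1
  refine Finset.sum_congr rfl fun v _ => ?_
  rw [hd]
  ring

end Pool.Agent.Q92.FP
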