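import Pool.Agent.Q92.FP.Scal

/-! The mean value of the adjoint character, and the trace of the inverse. -/

set_option autoImplicit false
set_option linter.all false

namespace Pool.Agent.Q92.FP

open Matrix Module Polynomial Pool.Agent.Y800
open scoped Kronecker

section

variable {G : Type*} [Group G] {k : Type*} [Field k] {n : ℕ}

theorem Ad_of_Per [IsAlgClosed k] [CharZero k] (hn : 0 < n) (ρ : G →* GL (Fin n) k)
    (hss : IsSemisimpleRep ρ) {h : G} (hh : h ∈ Per (adc ρ)) : Ad ρ h = 1 := by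
  obtain ⟨χ, hχ, hM⟩ := scalar_of_Per hn ρ hss hh
  have hinv : (ρ h : Matrix (Fin n) (Fin n) k) * (ρ h⁻¹ : Matrix (Fin n) (Fin n) k) = 1 := by
    rw [← Units.val_mul, ← map_mul, mul_inv_cancel, map_one, Units.val_one]
  have hM' : (ρ h⁻¹ : Matrix (Fin n) (Fin n) k) = χ⁻¹ • 1 := by
    rw [hM, smul_mul_assoc, one_mul] at hinv
    rw [← hinv, smul_smul, inv_mul_cancel₀ hχ, one_smul]
  show (ρ h⁻¹ : Matrix (Fin n) (Fin n) k)ᵀ ⊗ₖ (ρ h : Matrix (Fin n) (Fin n) k) = 1
  rw [hM, hM', Matrix.transpose_smul, Matrix.transpose_one, Matrix.smul_kronecker,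
    Matrix.kronecker_smul, smul_smul, inv_mul_cancel₀ hχ, one_smul, Matrix.one_kronecker_one]

/-- the average of a finite matrix group fixes the fixed vectors, and its trace is at least two if
there are two independent fixed vectors -/
theorem avg_ge {Q ι : Type*} [Group Q] [Fintype Q] [Fintype ι] [DecidableEq ι] [CharZero k]
    (R : Q →* Matrix ι ι k) (x y : ι → k) (hx : ∀ q, R q *ᵥ x = x) (hy : ∀ q, R q *ᵥ y = y)
    (hxy : LinearIndependent k ![x, y]) :
    ∃ m : ℕ, 2 ≤ m ∧ (Fintype.card Q : k)⁻¹ * ∑ q, (R q).trace = m := by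
  classical
  set c : k := (Fintype.card Q : k)⁻¹ with hc
  have hc0 : (Fintype.card Q : k) ≠ 0 := by exact_mod_cast Fintype.card_ne_zero
  set S : Matrix ι ι k := ∑ q, R q with hS
  have h1 : ∀ q, R q * S = S := by
    intro q
    rw [hS, Finset.mul_sum]
    simp only [← map_mul]
    exact Equiv.sum_comp (Equiv.mulLeft q) fun r => R r
  have h2 : S * S = (Fintype.card Q : k) • S := by
    conv_lhs => rw [hS, Finset.sum_mul]
    rw [Finset.sum_congr rfl fun q _ => h1 q, Finset.sum_const, Finset.card_univ,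
      ← Nat.cast_smul_eq_nsmul k]
  set e : Matrix ι ι k := c • S with he
  have hee : e * e = e := by
    rw [he, smul_mul_smul_comm, h2, smul_smul, mul_assoc, hc, inv_mul_cancel₀ hc0, mul_one]
  have hfix : ∀ z : ι → k, (∀ q, R q *ᵥ z = z) → e *ᵥ z = z := by
    intro z hz
    rw [he, Matrix.smul_mulVec, hS, Matrix.sum_mulVec, Finset.sum_congr rfl fun q _ => hz q,
      Finset.sum_const, Finset.card_univ, ← Nat.cast_smul_eq_nsmul k, smul_smul, hc,
      inv_mul_cancel₀ hc0, one_smul]
  have hff : IsIdempotentElem (Matrix.toLin' e) := by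
    unfold IsIdempotentElem
    rw [Module.End.mul_eq_comp, ← Matrix.toLin'_mul, hee]
  have h3 := (LinearMap.IsIdempotentElem.isProj_range _ hff).trace
  rw [Matrix.trace_toLin'_eq] at h3
  refine ⟨finrank k (LinearMap.range (Matrix.toLin' e)), ?_, ?_⟩
  rotate_left
  · have h4 : e.trace = c * ∑ q, (R q).trace := by
      rw [he, Matrix.trace_smul, smul_eq_mul, hS, Matrix.trace_sum]
    rw [← h4]
    exact h3
  · have hx' : x ∈ LinearMap.range (Matrix.toLin' e) := ⟨x, by rw [Matrix.toLin'_apply, hfix x hx]⟩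
    have hy' : y ∈ LinearMap.range (Matrix.toLin' e) := ⟨y, by rw [Matrix.toLin'_apply, hfix y hy]⟩
    let b : Fin 2 → LinearMap.range (Matrix.toLin' e) := ![⟨x, hx'⟩, ⟨y, hy'⟩]
    have hb : LinearIndependent k b := by
      apply LinearIndependent.of_comp (LinearMap.range (Matrix.toLin' e)).subtype
      have h5 : ((LinearMap.range (Matrix.toLin' e)).subtype : _ → ι → k) ∘ b = ![x, y] := by
        funext i
        fin_cases i <;> rfl
      rw [h5]
      exact hxy
    have := hb.fintype_card_le_finrank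
    rwa [Fintype.card_fin] at this

/-- the adjoint representation of the finite quotient -/
noncomputable def AdQ [IsAlgClosed k] [CharZero k] (hn : 0 < n) (ρ : G →* GL (Fin n) k)
    (hss : IsSemisimpleRep ρ) [(Per (adc ρ)).Normal] :
    G ⧸ Per (adc ρ) →* Matrix (Fin n × Fin n) (Fin n × Fin n) k :=
  QuotientGroup.lift (Per (adc ρ)) (Ad ρ) fun h hh => Ad_of_Per hn ρ hss hh

theorem AdQ_mk [IsAlgClosed k] [CharZero k] (hn : 0 < n) (ρ : G →* GL (Fin n) k)
    (hss : IsSemisimpleRep ρ) [(Per (adc ρ)).Normal] (g : G) :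
    (AdQ hn ρ hss (QuotientGroup.mk g)).trace = adc ρ g := by
  rw [← trace_Ad]
  rfl

theorem exists_proj {U U' : Submodule k (Fin n → k)} (h : IsCompl U U') (hU : U ≠ ⊥) (hU' : U ≠ ⊤)
    (ρ : G →* GL (Fin n) k) (h1 : Stable ρ U) (h2 : Stable ρ U') :
    ∃ P : Matrix (Fin n) (Fin n) k, LinearIndependent k ![(1 : Matrix (Fin n) (Fin n) k).vec, P.vec] ∧
      ∀ g, (ρ g : Matrix (Fin n) (Fin n) k) * P = P * (ρ g : Matrix (Fin n) (Fin n) k) := by
  classical
  have hex : ∀ v : Fin n → k, ∃ u ∈ U, ∃ u' ∈ U', u + u' = v := fun v =>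
    Submodule.mem_sup.1 (by rw [h.sup_eq_top]; trivial)
  have huniq : ∀ u ∈ U, ∀ u' ∈ U', ∀ w ∈ U, ∀ w' ∈ U', u + u' = w + w' → u = w := by
    intro u hu u' hu' w hw w' hw' he
    have h3 : u - w = w' - u' := by
      rw [sub_eq_sub_iff_add_eq_add, he, add_comm]
    have h4 : u - w ∈ U ⊓ U' := ⟨sub_mem hu hw, by rw [h3]; exact sub_mem hw' hu'⟩
    rw [h.inf_eq_bot, Submodule.mem_bot, sub_eq_zero] at h4
    exact h4
  choose p hp p' hp' hpp using hex
  have hpu : ∀ u ∈ U, ∀ u' ∈ U', p (u + u') = u := fun u hu u' hu' =>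
    huniq _ (hp _) _ (hp' _) _ hu _ hu' (hpp _)
  let f : (Fin n → k) →ₗ[k] (Fin n → k) :=
    { toFun := p
      map_add' := by
        intro v w
        have h3 : v + w = (p v + p w) + (p' v + p' w) := by
          conv_lhs => rw [← hpp v, ← hpp w]
          abel
        rw [h3, hpu _ (add_mem (hp v) (hp w)) _ (add_mem (hp' v) (hp' w))]
      map_smul' := by
        intro c v
        have h3 : c • v = c • p v + c • p' v := by rw [← smul_add, hpp]
        rw [h3, hpu _ (Submodule.smul_mem _ _ (hp v)) _ (Submodule.smul_mem _ _ (hp' v))]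
        rfl }
  refine ⟨LinearMap.toMatrix' f, ?_, ?_⟩
  · rw [LinearIndependent.pair_iff]
    intro s t hst
    have h3 : ∀ v : Fin n → k, s • v + t • p v = 0 := by
      intro v
      have h4 : s • (1 : Matrix (Fin n) (Fin n) k) + t • LinearMap.toMatrix' f = 0 := by
        ext i j
        exact congrFun hst (j, i)
      have h5 := congrArg (fun A : Matrix (Fin n) (Fin n) k => A *ᵥ v) h4
      simp only [Matrix.add_mulVec, Matrix.smul_mulVec, Matrix.one_mulVec, Matrix.zero_mulVec] at h5
      rw [← Matrix.toLin'_apply, Matrix.toLin'_toMatrix'] at h5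
      exact h5
    obtain ⟨u, hu, hu0⟩ := (Submodule.ne_bot_iff _).1 hU
    have hU'b : U' ≠ ⊥ := by
      rintro rfl
      apply hU'
      have := h.sup_eq_top
      rwa [sup_bot_eq] at this
    obtain ⟨w, hw, hw0⟩ := (Submodule.ne_bot_iff _).1 hU'b
    have h6 := h3 w
    have hpw : p w = 0 := by
      have := hpu 0 (zero_mem _) w hw
      rwa [zero_add] at this
    rw [hpw, smul_zero, add_zero] at h6
    have hs0 : s = 0 := (smul_eq_zero.1 h6).resolve_right hw0
    have h7 := h3 u
    have hpu' : p u = u := by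
      have := hpu u hu 0 (zero_mem _)
      rwa [add_zero] at this
    rw [hpu', hs0, zero_smul, zero_add] at h7
    exact ⟨hs0, (smul_eq_zero.1 h7).resolve_right hu0⟩
  · intro g
    apply Matrix.toLin'.injective
    rw [Matrix.toLin'_mul, Matrix.toLin'_mul, Matrix.toLin'_toMatrix']
    refine LinearMap.ext fun v => ?_
    rw [LinearMap.comp_apply, LinearMap.comp_apply, Matrix.toLin'_apply, Matrix.toLin'_apply]
    show (ρ g : Matrix (Fin n) (Fin n) k) *ᵥ p v = p ((ρ g : Matrix (Fin n) (Fin n) k) *ᵥ v)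
    conv_rhs => rw [← hpp v, Matrix.mulVec_add]
    rw [hpu _ (h1 g _ (hp v)) _ (h2 g _ (hp' v))]

/-- **The mean of the adjoint character of a reducible semisimple representation is an integer `≥ 2`.** -/
theorem mean_ge [IsAlgClosed k] [CharZero k] (hn : 0 < n) (ρ : G →* GL (Fin n) k)
    (hss : IsSemisimpleRep ρ) [(Per (adc ρ)).Normal] [Fintype (G ⧸ Per (adc ρ))]
    (U : Submodule k (Fin n → k)) (hU : Stable ρ U) (hU1 : U ≠ ⊥) (hU2 : U ≠ ⊤) :
    ∃ m : ℕ, 2 ≤ m ∧ (Fintype.card (G ⧸ Per (adc ρ)) : k)⁻¹ * ∑ q, (AdQ hn ρ hss q).trace = m := by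
  obtain ⟨U', hU', hc⟩ := hss U hU
  obtain ⟨P, hli, hcomm⟩ := exists_proj hc hU1 hU2 ρ hU hU'
  have hfix : ∀ X : Matrix (Fin n) (Fin n) k,
      (∀ g, (ρ g : Matrix (Fin n) (Fin n) k) * X = X * (ρ g : Matrix (Fin n) (Fin n) k)) →
      ∀ q, AdQ hn ρ hss q *ᵥ X.vec = X.vec := by
    intro X hX q
    obtain ⟨g, rfl⟩ := QuotientGroup.mk_surjective q
    show Ad ρ g *ᵥ X.vec = X.vec
    rw [Ad_vec, hX, mul_assoc, ← Units.val_mul, ← map_mul, mul_inv_cancel, map_one, Units.val_one,
      mul_one]
  exact avg_ge (AdQ hn ρ hss) _ _ (hfix 1 fun g => by rw [mul_one, one_mul]) (hfix P hcomm) hli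

theorem prod_aux (s : Multiset k) (hs : ∀ a ∈ s, a ≠ 0) (x : k) :
    (-1) ^ Multiset.card s * eval (-x) (s.map fun a => X - C a).prod =
      s.prod * (s.map fun a => 1 + a⁻¹ * x).prod := by
  induction s using Multiset.induction with
  | empty => simp
  | cons a s ih =>
    have h1 := ih fun b hb => hs b (Multiset.mem_cons_of_mem hb)
    have h2 : a ≠ 0 := hs a (Multiset.mem_cons_self a s)
    rw [Multiset.map_cons, Multiset.prod_cons, Multiset.map_cons, Multiset.prod_cons,
      Multiset.prod_cons, Multiset.card_cons, eval_mul, eval_sub, eval_X, eval_C, pow_succ]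
    calc (-1) ^ Multiset.card s * -1 * ((-x - a) * eval (-x) (s.map fun a => X - C a).prod)
        = (x + a) * ((-1) ^ Multiset.card s * eval (-x) (s.map fun a => X - C a).prod) := by ring
      _ = (x + a) * (s.prod * (s.map fun a => 1 + a⁻¹ * x).prod) := by rw [h1]
      _ = a * s.prod * ((1 + a⁻¹ * x) * (s.map fun a => 1 + a⁻¹ * x).prod) := by
        field_simp
        ring

theorem trace_inv_roots [IsAlgClosed k] [CharZero k] (M M' : Matrix (Fin n) (Fin n) k)
    (h : M * M' = 1) : M'.trace = (M.charpoly.roots.map fun a => a⁻¹).sum := by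
  have hdet : M.det * M'.det = 1 := by rw [← Matrix.det_mul, h, Matrix.det_one]
  have hd0 : M.det ≠ 0 := left_ne_zero_of_mul_eq_one hdet
  have hr0 : ∀ a ∈ M.charpoly.roots, a ≠ 0 := by
    intro a ha h0
    subst h0
    apply hd0
    rw [Matrix.det_eq_prod_roots_charpoly]
    exact Multiset.prod_eq_zero ha
  have h1 : Matrix.det (1 + (X : k[X]) • M'.map C) =
      (M.charpoly.roots.map fun a => 1 + C a⁻¹ * X).prod := by
    refine Polynomial.funext fun x => ?_
    have h2 : (Matrix.det (1 + (X : k[X]) • M'.map C)).eval x = (1 + x • M').det := by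
      rw [← Polynomial.coe_evalRingHom, RingHom.map_det]
      congr 1
      ext i j
      simp only [RingHom.mapMatrix_apply, Matrix.map_apply, Matrix.add_apply, Matrix.smul_apply,
        smul_eq_mul, map_add, map_mul, Polynomial.coe_evalRingHom, eval_X, eval_C]
      by_cases hij : i = j
      · subst hij
        rw [Matrix.one_apply_eq, Matrix.one_apply_eq, eval_one, eval_mul, eval_X, eval_C]
      · rw [Matrix.one_apply_ne hij, Matrix.one_apply_ne hij, eval_zero, eval_mul, eval_X, eval_C]
    have h3 : ((M.charpoly.roots.map fun a => 1 + C a⁻¹ * X).prod).eval x =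
        (M.charpoly.roots.map fun a => 1 + a⁻¹ * x).prod := by
      rw [← Polynomial.coe_evalRingHom, map_multiset_prod, Multiset.map_map]
      congr 1
      refine Multiset.map_congr rfl fun a _ => ?_
      simp
    rw [h2, h3]
    apply mul_left_cancel₀ hd0
    rw [← Matrix.det_mul, mul_add, mul_one, mul_smul_comm, h]
    have h4 : M + x • (1 : Matrix (Fin n) (Fin n) k) = -(Matrix.scalar (Fin n) (-x) - M) := by
      rw [Matrix.scalar_apply, ← Matrix.smul_one_eq_diagonal, neg_smul]
      abel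
    rw [h4, Matrix.det_neg, ← Matrix.eval_charpoly]
    conv_lhs => rw [(IsAlgClosed.splits M.charpoly).eq_prod_roots_of_monic M.charpoly_monic]
    rw [Matrix.det_eq_prod_roots_charpoly]
    have hcard : Fintype.card (Fin n) = Multiset.card M.charpoly.roots := by
      rw [← (IsAlgClosed.splits M.charpoly).natDegree_eq_card_roots, Matrix.charpoly_natDegree_eq_dim]
    rw [hcard]
    exact prod_aux M.charpoly.roots hr0 x
  have h5 := Matrix.derivative_det_one_add_X_smul M'
  rw [h1] at h5
  rw [← h5]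
  generalize M.charpoly.roots = s
  have h6 : ((s.map fun a => 1 + C a⁻¹ * X).prod).eval (0 : k) = 1 ∧
      (derivative (s.map fun a => 1 + C a⁻¹ * X).prod).eval (0 : k) = (s.map fun a => a⁻¹).sum := by
    induction s using Multiset.induction with
    | empty => simp
    | cons a s ih =>
      rw [Multiset.map_cons, Multiset.prod_cons, Multiset.map_cons, Multiset.sum_cons, derivative_mul,
        eval_add, eval_mul, eval_mul, eval_mul, ih.1, ih.2]
      simp
  exact h6.2

end

end Pool.Agent.Q92.FP
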