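import Pool.Agent.Q92.FP.Ad

/-! For a semisimple representation the periods of the adjoint character act by scalars. -/

set_option autoImplicit false
set_option linter.all false

namespace Pool.Agent.Q92.FP

open Matrix Module Polynomial Pool.Agent.Y800

section

variable {G : Type*} [Group G] {k : Type*} [Field k] {n : ℕ}

/-- conjugation by `ρ g` -/
theorem conj_mem_Sp (ρ : G →* GL (Fin n) k) (K : Subgroup G) [K.Normal] (g : G)
    {y : Matrix (Fin n) (Fin n) k} (hy : y ∈ Sp (ρ.comp K.subtype)) :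
    (ρ g⁻¹ : Matrix (Fin n) (Fin n) k) * y * (ρ g : Matrix (Fin n) (Fin n) k) ∈
      Sp (ρ.comp K.subtype) := by
  unfold Sp at hy
  induction hy using Submodule.span_induction with
  | mem z hz =>
    obtain ⟨h, rfl⟩ := hz
    have h1 : g⁻¹ * (h : G) * g ∈ K := by
      have := (inferInstance : K.Normal).conj_mem h h.2 g⁻¹
      rwa [inv_inv] at this
    have h2 := mem_Sp (ρ.comp K.subtype) ⟨_, h1⟩
    have h3 : (ρ g⁻¹ : Matrix (Fin n) (Fin n) k) * ((ρ.comp K.subtype) h : GL (Fin n) k) *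
        (ρ g : Matrix (Fin n) (Fin n) k) =
        ((ρ.comp K.subtype) ⟨_, h1⟩ : GL (Fin n) k) := by
      show _ = ((ρ (g⁻¹ * (h : G) * g) : GL (Fin n) k) : Matrix (Fin n) (Fin n) k)
      rw [map_mul, map_mul, Units.val_mul, Units.val_mul]
      rfl
    rw [h3]
    exact h2
  | zero => rw [mul_zero, zero_mul]; exact zero_mem _
  | add y z _ _ hy hz => rw [mul_add, add_mul]; exact add_mem hy hz
  | smul c y _ hy => rw [mul_smul_comm, smul_mul_assoc]; exact Submodule.smul_mem _ _ hy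

theorem conj_mem_Rad (ρ : G →* GL (Fin n) k) (K : Subgroup G) [K.Normal] (g : G)
    {y : Matrix (Fin n) (Fin n) k} (hy : y ∈ Rad (ρ.comp K.subtype)) :
    (ρ g⁻¹ : Matrix (Fin n) (Fin n) k) * y * (ρ g : Matrix (Fin n) (Fin n) k) ∈
      Rad (ρ.comp K.subtype) := by
  refine ⟨conj_mem_Sp ρ K g hy.1, fun a ha => ?_⟩
  have h1 := conj_mem_Sp ρ K g⁻¹ ha
  rw [inv_inv] at h1
  have h2 := hy.2 _ h1
  rw [← h2, ← mul_assoc, ← mul_assoc, Matrix.trace_mul_comm]
  simp only [mul_assoc]

/-- **Nondegeneracy of the trace form on a normal subgroup** (Clifford). -/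
theorem Rad_eq_bot_normal (ρ : G →* GL (Fin n) k) (K : Subgroup G) [K.Normal]
    (hn : ∀ m : ℕ, 1 ≤ m → m ≤ n → (m : k) ≠ 0) (hss : IsSemisimpleRep ρ) :
    Rad (ρ.comp K.subtype) = ⊥ := by
  let W₀ : Submodule k (Fin n → k) :=
    { carrier := {v | ∀ y ∈ Rad (ρ.comp K.subtype), y.mulVec v = 0}
      add_mem' := fun {v w} hv hw y hy => by rw [Matrix.mulVec_add, hv y hy, hw y hy, add_zero]
      zero_mem' := fun y _ => Matrix.mulVec_zero y
      smul_mem' := fun c v hv y hy => by rw [Matrix.mulVec_smul, hv y hy, smul_zero] }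
  have hW₀ : Stable ρ W₀ := by
    intro g v hv y hy
    have h1 := hv _ (conj_mem_Rad ρ K g hy)
    have h2 : (ρ g : Matrix (Fin n) (Fin n) k) *ᵥ (((ρ g⁻¹ : Matrix (Fin n) (Fin n) k) * y *
        (ρ g : Matrix (Fin n) (Fin n) k)) *ᵥ v) = y *ᵥ ((ρ g : Matrix (Fin n) (Fin n) k) *ᵥ v) := by
      rw [Matrix.mulVec_mulVec, Matrix.mulVec_mulVec, ← mul_assoc, ← mul_assoc, ← Units.val_mul,
        ← map_mul, mul_inv_cancel, map_one, Units.val_one, one_mul]
    rw [← h2, h1, Matrix.mulVec_zero]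
  obtain ⟨W', hW'G, hc⟩ := hss W₀ hW₀
  have hW' : Stable (ρ.comp K.subtype) W' := fun g => hW'G g
  have hbot : W' = ⊥ := by
    by_contra hne
    classical
    have hex : ∃ d : ℕ, ∃ W : Submodule k (Fin n → k), Stable (ρ.comp K.subtype) W ∧ W ≤ W' ∧
        W ≠ ⊥ ∧ finrank k W = d :=
      ⟨_, W', hW', le_rfl, hne, rfl⟩
    obtain ⟨W, hW, hWW, hWne, hWd⟩ := Nat.find_spec hex
    have hmin : ∀ V : Submodule k (Fin n → k), Stable (ρ.comp K.subtype) V → V ≤ W → V ≠ ⊥ →
        V = W := by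
      intro V hV hVW hVne
      have h1 := Nat.find_min' hex ⟨V, hV, hVW.trans hWW, hVne, rfl⟩
      rw [← hWd] at h1
      exact Submodule.eq_of_le_of_finrank_le hVW h1
    have h2 : ∃ y ∈ Rad (ρ.comp K.subtype), ∃ w ∈ W, y.mulVec w ≠ 0 := by
      by_contra h
      push Not at h
      apply hWne
      rw [eq_bot_iff, ← hc.inf_eq_bot]
      exact fun w hw => ⟨fun y hy => h y hy w hw, hWW hw⟩
    obtain ⟨y, hy, w, hw, hyw⟩ := h2
    let V : Submodule k (Fin n → k) :=
      { carrier := {v | ∃ z ∈ Rad (ρ.comp K.subtype), z.mulVec w = v}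
        add_mem' := by
          rintro _ _ ⟨z, hz, rfl⟩ ⟨z', hz', rfl⟩
          exact ⟨z + z', add_mem hz hz', Matrix.add_mulVec _ _ _⟩
        zero_mem' := ⟨0, zero_mem _, Matrix.zero_mulVec _⟩
        smul_mem' := by
          rintro c _ ⟨z, hz, rfl⟩
          exact ⟨c • z, Submodule.smul_mem _ _ hz, Matrix.smul_mulVec _ _ _⟩ }
    have hVs : Stable (ρ.comp K.subtype) V := by
      rintro g _ ⟨z, hz, rfl⟩
      exact ⟨_, mul_mem_Rad (ρ.comp K.subtype) (mem_Sp (ρ.comp K.subtype) g) hz,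
        by rw [Matrix.mulVec_mulVec]⟩
    have hVW : V ≤ W := by
      rintro _ ⟨z, hz, rfl⟩
      exact Sp_stable (ρ.comp K.subtype) hW hz.1 w hw
    have hVne : V ≠ ⊥ := by
      intro h
      apply hyw
      have : y.mulVec w ∈ V := ⟨y, hy, rfl⟩
      rw [h] at this
      exact (Submodule.mem_bot k).1 this
    have hVeq := hmin V hVs hVW hVne
    have hwV : w ∈ V := by rw [hVeq]; exact hw
    obtain ⟨z, hz, hzw⟩ := hwV
    obtain ⟨N, hN⟩ := Rad_nil (ρ.comp K.subtype) hn hz
    have h3 : ∀ m : ℕ, (z ^ m).mulVec w = w := by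
      intro m
      induction m with
      | zero => rw [pow_zero, Matrix.one_mulVec]
      | succ m ih => rw [pow_succ, ← Matrix.mulVec_mulVec, hzw, ih]
    have h4 := h3 N
    rw [hN, Matrix.zero_mulVec] at h4
    apply hyw
    rw [← h4, Matrix.mulVec_zero]
  have htop : W₀ = ⊤ := by
    have := hc.sup_eq_top
    rwa [hbot, sup_bot_eq] at this
  rw [eq_bot_iff]
  intro y hy
  rw [Submodule.mem_bot]
  have h5 : ∀ v, y.mulVec v = 0 := fun v => by
    have : v ∈ W₀ := by rw [htop]; trivial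
    exact this y hy
  apply Matrix.toLin'.injective
  refine LinearMap.ext fun v => ?_
  rw [Matrix.toLin'_apply, h5, map_zero, LinearMap.zero_apply]

theorem eq_zero_of_trace_normal (ρ : G →* GL (Fin n) k) (K : Subgroup G) [K.Normal]
    (hn : ∀ m : ℕ, 1 ≤ m → m ≤ n → (m : k) ≠ 0) (hss : IsSemisimpleRep ρ)
    {x : Matrix (Fin n) (Fin n) k} (hx : x ∈ Sp (ρ.comp K.subtype))
    (ht : ∀ g ∈ K, ((ρ g : Matrix (Fin n) (Fin n) k) * x).trace = 0) : x = 0 := by
  have h1 : x ∈ Rad (ρ.comp K.subtype) := by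
    refine ⟨hx, fun a ha => ?_⟩
    unfold Sp at ha
    induction ha using Submodule.span_induction with
    | mem z hz =>
      obtain ⟨g, rfl⟩ := hz
      exact ht g g.2
    | zero => rw [zero_mul, Matrix.trace_zero]
    | add y z _ _ hy hz => rw [add_mul, Matrix.trace_add, hy, hz, add_zero]
    | smul c y _ hy => rw [smul_mul_assoc, Matrix.trace_smul, hy, smul_zero]
  rw [Rad_eq_bot_normal ρ K hn hss] at h1
  exact (Submodule.mem_bot k).1 h1

/-- powers of a unipotent matrix are polynomials in the exponent -/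
theorem pow_one_add {A : Type*} [Ring A] [Algebra k A] (N : A) (n : ℕ) (hN : N ^ n = 0) (j : ℕ) :
    (1 + N) ^ j = ∑ i ∈ Finset.range n, (j.choose i : A) * N ^ i := by
  have h1 : (1 + N) ^ j = ∑ i ∈ Finset.range (j + 1), (j.choose i : A) * N ^ i := by
    rw [add_comm, (Commute.one_right N).add_pow]
    refine Finset.sum_congr rfl fun i _ => ?_
    rw [one_pow, mul_one]
    exact (Nat.cast_commute _ _).eq.symm
  have h2 : ∀ i, i ∉ Finset.range (j + 1) → (j.choose i : A) * N ^ i = 0 := by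
    intro i hi
    rw [Finset.mem_range, not_lt] at hi
    rw [Nat.choose_eq_zero_of_lt (by omega), Nat.cast_zero, zero_mul]
  have h3 : ∀ i, i ∉ Finset.range n → (j.choose i : A) * N ^ i = 0 := by
    intro i hi
    rw [Finset.mem_range, not_lt] at hi
    rw [← Nat.sub_add_cancel hi, pow_add, hN, mul_zero, mul_zero]
  rw [h1, Finset.sum_subset (Finset.range_subset_range.2 (by omega : j + 1 ≤ j + 1 + n))
    (fun i _ hi => h2 i hi), Finset.sum_subset (Finset.range_subset_range.2 (by omega : n ≤ j + 1 + n))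
    (fun i _ hi => h3 i hi)]

theorem exists_poly [CharZero k] (g N : Matrix (Fin n) (Fin n) k) (hN : N ^ n = 0) :
    ∃ P : k[X], ∀ j : ℕ, P.eval (j : k) = (g * (1 + N) ^ j).trace := by
  refine ⟨∑ i ∈ Finset.range n, C ((g * N ^ i).trace / (i.factorial : k)) * descPochhammer k i, ?_⟩
  intro j
  rw [pow_one_add (k := k) N n hN j, Finset.mul_sum, Matrix.trace_sum, eval_finset_sum]
  refine Finset.sum_congr rfl fun i _ => ?_
  rw [eval_mul, eval_C, descPochhammer_eval_eq_descFactorial, Nat.descFactorial_eq_factorial_mul_choose,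
    Nat.cast_mul]
  have h0 : (i.factorial : k) ≠ 0 := by exact_mod_cast i.factorial_ne_zero
  have h1 : g * ((j.choose i : Matrix (Fin n) (Fin n) k) * N ^ i) = (j.choose i : k) • (g * N ^ i) := by
    rw [← nsmul_eq_mul, mul_smul_comm, ← Nat.cast_smul_eq_nsmul k]
  rw [h1, Matrix.trace_smul, smul_eq_mul]
  field_simp

/-- **Periods of the adjoint character are scalar.** -/
theorem scalar_of_Per [IsAlgClosed k] [CharZero k] (hn : 0 < n) (ρ : G →* GL (Fin n) k)
    (hss : IsSemisimpleRep ρ) {h : G} (hh : h ∈ Per (adc ρ)) :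
    ∃ χ : k, χ ≠ 0 ∧ (ρ h : Matrix (Fin n) (Fin n) k) = χ • (1 : Matrix (Fin n) (Fin n) k) := by
  haveI : (Per (adc ρ)).Normal := Per_normal _ (adc_comm ρ)
  obtain ⟨χ, hχ, hcp⟩ := single hn ρ hh
  set M : Matrix (Fin n) (Fin n) k := (ρ h : Matrix (Fin n) (Fin n) k) with hM
  have hn0 : (n : k) ≠ 0 := by exact_mod_cast hn.ne'
  set N : Matrix (Fin n) (Fin n) k := χ⁻¹ • M - 1 with hNdef
  have hMN : M = χ • (1 + N) := by
    rw [hNdef, add_sub_cancel, smul_smul, mul_inv_cancel₀ hχ, one_smul]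
  have hNn : N ^ n = 0 := by
    have h1 := Matrix.aeval_self_charpoly M
    rw [hcp, map_pow, map_sub, aeval_X, aeval_C] at h1
    have h2 : M - algebraMap k (Matrix (Fin n) (Fin n) k) χ = χ • N := by
      rw [hNdef, smul_sub, smul_smul, mul_inv_cancel₀ hχ, one_smul, Algebra.algebraMap_eq_smul_one]
    rw [h2, _root_.smul_pow] at h1
    exact (smul_eq_zero.1 h1).resolve_left (pow_ne_zero _ hχ)
  have key : ∀ g ∈ Per (adc ρ), ((ρ g : Matrix (Fin n) (Fin n) k) * N).trace = 0 := by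
    intro g hg
    obtain ⟨P, hP⟩ := exists_poly (ρ g : Matrix (Fin n) (Fin n) k) N hNn
    set D : k := (n : k) ^ n * (ρ g : Matrix (Fin n) (Fin n) k).det with hD
    have h1 : ∀ j : ℕ, (P ^ n).eval (j : k) = (C D).eval (j : k) := by
      intro j
      have hgj : g * h ^ j ∈ Per (adc ρ) := mul_mem hg (pow_mem hh j)
      obtain ⟨ψ, hψ, hcψ⟩ := single hn ρ hgj
      have ht := trace_single hcψ
      have hd := det_single hcψ
      have hmat : (ρ (g * h ^ j) : Matrix (Fin n) (Fin n) k) =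
          χ ^ j • ((ρ g : Matrix (Fin n) (Fin n) k) * (1 + N) ^ j) := by
        rw [map_mul, map_pow, Units.val_mul, Units.val_pow_eq_pow_val, ← hM, hMN, _root_.smul_pow,
          mul_smul_comm]
      have hd2 : (ρ (g * h ^ j) : Matrix (Fin n) (Fin n) k).det =
          (ρ g : Matrix (Fin n) (Fin n) k).det * (χ ^ n) ^ j := by
        rw [map_mul, map_pow, Units.val_mul, Units.val_pow_eq_pow_val, Matrix.det_mul, Matrix.det_pow,
          ← hM, det_single hcp]
      rw [hmat, Matrix.trace_smul, smul_eq_mul] at ht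
      rw [hd2] at hd
      rw [eval_pow, eval_C, hP j, hD]
      have hχj : (χ ^ j) ≠ 0 := pow_ne_zero _ hχ
      have h2 : ((ρ g : Matrix (Fin n) (Fin n) k) * (1 + N) ^ j).trace = (n : k) * ψ / χ ^ j := by
        rw [← ht]; field_simp
      rw [h2, div_pow, mul_pow, ← hd]
      have h3 : (χ ^ j) ^ n = (χ ^ n) ^ j := by rw [← pow_mul, ← pow_mul, mul_comm]
      rw [h3]
      have h4 : (χ ^ n) ^ j ≠ 0 := pow_ne_zero _ (pow_ne_zero _ hχ)
      field_simp
    have h2 : P ^ n = C D := by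
      refine Polynomial.eq_of_infinite_eval_eq _ _ ?_
      refine (Set.infinite_range_of_injective (Nat.cast_injective (R := k))).mono ?_
      rintro _ ⟨j, rfl⟩
      exact h1 j
    have h3 : P.natDegree = 0 := by
      have h4 := congrArg natDegree h2
      rw [natDegree_pow, natDegree_C] at h4
      rcases mul_eq_zero.1 h4 with h5 | h5
      · omega
      · exact h5
    obtain ⟨a, rfl⟩ := natDegree_eq_zero.1 h3
    have h4 := hP 0
    have h5 := hP 1
    rw [eval_C] at h4 h5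
    rw [pow_zero, mul_one] at h4
    rw [pow_one, mul_add, mul_one, Matrix.trace_add, ← h4] at h5
    exact left_eq_add.1 h5
  have hNS : N ∈ Sp (ρ.comp (Per (adc ρ)).subtype) := by
    rw [hNdef]
    exact sub_mem (Submodule.smul_mem _ _ (mem_Sp (ρ.comp (Per (adc ρ)).subtype) ⟨h, hh⟩))
      (one_mem_Sp _)
  have hN0 := eq_zero_of_trace_normal ρ (Per (adc ρ))
    (fun m hm _ => by exact_mod_cast (by omega : m ≠ 0)) hss hNS key
  refine ⟨χ, hχ, ?_⟩
  rw [hMN, hN0, add_zero]

end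

end Pool.Agent.Q92.FP
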