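import Pool.Agent.Q92.FP.Fin
import Pool.Agent.Y800.Frob2
import Pool.Agent.Y115.Chi

/-! Twists, the cyclotomic character, and representations which become finite after a twist. -/

set_option autoImplicit false
set_option linter.all false

namespace Pool.Agent.Q92.FP

open NumberField Filter Topology Matrix Polynomial
open Pool.Agent.Y800

section twist

variable {G : Type*} [Group G] {k : Type*} [Field k] {n : ℕ}

/-- scalar matrices -/
noncomputable def scal (k : Type*) [Field k] (n : ℕ) : kˣ →* GL (Fin n) k :=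
  Units.map (algebraMap k (Matrix (Fin n) (Fin n) k)).toMonoidHom

theorem coe_scal (c : kˣ) : (scal k n c : Matrix (Fin n) (Fin n) k) = (c : k) • 1 := by
  show algebraMap k (Matrix (Fin n) (Fin n) k) c = _
  rw [Algebra.algebraMap_eq_smul_one]

theorem scal_comm (c : kˣ) (M : GL (Fin n) k) : scal k n c * M = M * scal k n c := by
  apply Units.ext
  rw [Units.val_mul, Units.val_mul, coe_scal, smul_mul_assoc, mul_smul_comm, one_mul, mul_one]

/-- the twist of a representation by a character -/
noncomputable def twist (ρ : G →* GL (Fin n) k) (X : G →* kˣ) : G →* GL (Fin n) k where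
  toFun g := scal k n (X g) * ρ g
  map_one' := by rw [map_one, map_one, map_one, mul_one]
  map_mul' g h := by
    rw [map_mul, map_mul, map_mul]
    calc scal k n (X g) * scal k n (X h) * (ρ g * ρ h)
        = scal k n (X g) * (scal k n (X h) * ρ g) * ρ h := by simp only [mul_assoc]
      _ = scal k n (X g) * (ρ g * scal k n (X h)) * ρ h := by rw [scal_comm (X h) (ρ g)]
      _ = scal k n (X g) * ρ g * (scal k n (X h) * ρ h) := by simp only [mul_assoc]

theorem coe_twist (ρ : G →* GL (Fin n) k) (X : G →* kˣ) (g : G) :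
    (twist ρ X g : Matrix (Fin n) (Fin n) k) = (X g : k) • (ρ g : Matrix (Fin n) (Fin n) k) := by
  show ((scal k n (X g) * ρ g : GL (Fin n) k) : Matrix (Fin n) (Fin n) k) = _
  rw [Units.val_mul, coe_scal, smul_mul_assoc, one_mul]

theorem roots_smul [IsAlgClosed k] (c : k) (hc : c ≠ 0) (M : Matrix (Fin n) (Fin n) k) :
    (c • M).charpoly.roots = M.charpoly.roots.map fun a => c * a := by
  have h1 : (c • M).charpoly = ((M.charpoly.roots.map fun a => c * a).map fun a => X - C a).prod := by
    haveI : Infinite k := IsAlgClosed.instInfinite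
    refine Polynomial.funext fun x => ?_
    rw [Matrix.eval_charpoly]
    have h2 : Matrix.scalar (Fin n) x - c • M = c • (Matrix.scalar (Fin n) (c⁻¹ * x) - M) := by
      rw [smul_sub, Matrix.scalar_apply, Matrix.scalar_apply, ← Matrix.smul_one_eq_diagonal,
        ← Matrix.smul_one_eq_diagonal, smul_smul, mul_inv_cancel_left₀ hc]
    rw [h2, Matrix.det_smul, ← Matrix.eval_charpoly]
    have hcard : Fintype.card (Fin n) = Multiset.card M.charpoly.roots := by
      rw [← (IsAlgClosed.splits M.charpoly).natDegree_eq_card_roots, Matrix.charpoly_natDegree_eq_dim]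
    conv_lhs => rw [(IsAlgClosed.splits M.charpoly).eq_prod_roots_of_monic M.charpoly_monic, hcard]
    generalize M.charpoly.roots = s
    induction s using Multiset.induction with
    | empty => simp
    | cons a s ih =>
      rw [Multiset.card_cons, Multiset.map_cons, Multiset.prod_cons, Multiset.map_cons,
        Multiset.map_cons, Multiset.prod_cons, eval_mul, eval_mul, eval_sub, eval_sub, eval_X, eval_X,
        eval_C, eval_C, ← ih, pow_succ]
      have h3 : x - c * a = c * (c⁻¹ * x - a) := by rw [mul_sub, mul_inv_cancel_left₀ hc]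
      rw [h3]
      ring
  rw [h1, Polynomial.roots_multiset_prod_X_sub_C]

/-- Frobenius eigenvalues of a twist -/
theorem roots_twist [IsAlgClosed k] (ι : k →+* ℂ) (ρ : G →* GL (Fin n) k) (X : G →* kˣ) {g : G}
    {A : Multiset ℂ} {c : ℂ} (hc : ι (X g) = c)
    (h : ((ρ g : Matrix (Fin n) (Fin n) k).charpoly.map ι).roots = A) :
    ((twist ρ X g : Matrix (Fin n) (Fin n) k).charpoly.map ι).roots = A.map fun a => a * c := by
  have h1 : A = (ρ g : Matrix (Fin n) (Fin n) k).charpoly.roots.map ι := by
    rw [← h]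
    exact (IsAlgClosed.splits (ρ g : Matrix (Fin n) (Fin n) k).charpoly).roots_map ι
  rw [(IsAlgClosed.splits (twist ρ X g : Matrix (Fin n) (Fin n) k).charpoly).roots_map ι, coe_twist,
    roots_smul _ (X g).ne_zero, h1, Multiset.map_map, Multiset.map_map]
  refine Multiset.map_congr rfl fun a _ => ?_
  show ι (X g * a) = ι a * c
  rw [map_mul, hc, mul_comm]

/-- Frobenius eigenvalues after a change of fields -/
theorem roots_map {k' : Type*} [Field k'] (j : k →+* k') (ι' : k' →+* ℂ) (M : GL (Fin n) k) :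
    ((Matrix.GeneralLinearGroup.map j M : Matrix (Fin n) (Fin n) k').charpoly.map ι').roots =
      ((M : Matrix (Fin n) (Fin n) k).charpoly.map (ι'.comp j)).roots := by
  show (((M : Matrix (Fin n) (Fin n) k).map j).charpoly.map ι').roots = _
  rw [Matrix.charpoly_map, Polynomial.map_map]

theorem det_roots [IsAlgClosed k] (ι : k →+* ℂ) (M : Matrix (Fin n) (Fin n) k) :
    ι M.det = (M.charpoly.map ι).roots.prod := by
  rw [(IsAlgClosed.splits M.charpoly).roots_map ι, Matrix.det_eq_prod_roots_charpoly,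
    map_multiset_prod]

theorem stable_twist {ρ : G →* GL (Fin n) k} {X : G →* kˣ} {W : Submodule k (Fin n → k)} :
    Stable (twist ρ X) W ↔ Stable ρ W := by
  constructor
  · intro h g w hw
    have h1 := h g w hw
    rw [coe_twist, Matrix.smul_mulVec] at h1
    have h2 := W.smul_mem ((X g : k)⁻¹) h1
    rwa [smul_smul, inv_mul_cancel₀ (X g).ne_zero, one_smul] at h2
  · intro h g w hw
    rw [coe_twist, Matrix.smul_mulVec]
    exact W.smul_mem _ (h g w hw)

/-- irreducibility after a change of fields -/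
theorem irr_map {k' : Type*} [Field k'] (j : k ≃+* k') (ρ : G →* GL (Fin n) k)
    (h : ∀ W : Submodule k (Fin n → k), Stable ρ W → W = ⊥ ∨ W = ⊤)
    (W : Submodule k' (Fin n → k'))
    (hW : Stable ((Matrix.GeneralLinearGroup.map (j : k →+* k')).comp ρ) W) : W = ⊥ ∨ W = ⊤ := by
  let W' : Submodule k (Fin n → k) :=
    { carrier := {v | (fun i => j (v i)) ∈ W}
      add_mem' := by
        intro v w hv hw
        have h1 : (fun i => j ((v + w) i)) = (fun i => j (v i)) + fun i => j (w i) := by
          funext i; exact map_add j _ _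
        show (fun i => j ((v + w) i)) ∈ W
        rw [h1]
        exact add_mem hv hw
      zero_mem' := by
        have h1 : (fun i : Fin n => j ((0 : Fin n → k) i)) = 0 := by funext i; exact map_zero j
        show (fun i : Fin n => j ((0 : Fin n → k) i)) ∈ W
        rw [h1]
        exact zero_mem _
      smul_mem' := by
        intro c v hv
        have h1 : (fun i => j ((c • v) i)) = j c • fun i => j (v i) := by
          funext i; exact map_mul j _ _
        show (fun i => j ((c • v) i)) ∈ W
        rw [h1]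
        exact W.smul_mem _ hv }
  have hst : Stable ρ W' := by
    intro g v hv
    have h1 := hW g _ hv
    have h2 : (((Matrix.GeneralLinearGroup.map (j : k →+* k')).comp ρ) g :
        Matrix (Fin n) (Fin n) k') *ᵥ (fun i => j (v i)) =
        fun i => j (((ρ g : Matrix (Fin n) (Fin n) k) *ᵥ v) i) := by
      funext i
      show ∑ l, j ((ρ g : Matrix (Fin n) (Fin n) k) i l) * j (v l) =
        j (∑ l, (ρ g : Matrix (Fin n) (Fin n) k) i l * v l)
      rw [map_sum]
      simp only [map_mul]
    rw [h2] at h1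
    exact h1
  have hsurj : ∀ w : Fin n → k', (fun i => j (j.symm (w i))) = w := fun w => by
    funext i; exact j.apply_symm_apply _
  rcases h W' hst with h1 | h1
  · left
    rw [eq_bot_iff]
    intro w hw
    have h2 : (fun i => j.symm (w i)) ∈ W' := by
      show (fun i => j (j.symm (w i))) ∈ W
      rw [hsurj]; exact hw
    rw [h1, Submodule.mem_bot] at h2
    rw [Submodule.mem_bot]
    funext i
    have h3 := congrFun h2 i
    have h4 : j.symm (w i) = 0 := h3
    show w i = 0
    rw [← j.apply_symm_apply (w i), h4, map_zero]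
  · right
    rw [eq_top_iff]
    intro w _
    have h2 : (fun i => j.symm (w i)) ∈ W' := by rw [h1]; trivial
    have h3 : (fun i => j (j.symm (w i))) ∈ W := h2
    rwa [hsurj] at h3

end twist

section cyc

variable (ℓ : ℕ) [hℓ : Fact ℓ.Prime]

/-- the `ℓ`-adic cyclotomic character -/
noncomputable def cyc : GQ →* (PadicAlgCl ℓ)ˣ :=
  (Units.map ((algebraMap ℚ_[ℓ] (PadicAlgCl ℓ)).comp PadicInt.Coe.ringHom).toMonoidHom).comp
    (Pool.Agent.Y115.Chi.chi ℚ ℓ)

theorem continuous_cyc : Continuous (cyc ℓ) := by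
  have h1 : Continuous ((algebraMap ℚ_[ℓ] (PadicAlgCl ℓ)).comp PadicInt.Coe.ringHom) :=
    (continuous_algebraMap ℚ_[ℓ] (PadicAlgCl ℓ)).comp continuous_subtype_val
  exact (Continuous.units_map _ h1).comp (Pool.Agent.Y115.Chi.continuous_chi ℚ ℓ)

variable {ℓ}

theorem cyc_frobAt {p q : ℕ} (hp : p.Prime) (hpl : p ≠ ℓ) {P : Ideal ZBar} (hP : P.IsPrime)
    (hpP : (p : ZBar) ∈ P) {σ : GQ} (hσ : ∀ x : ZBar, σ • x - x ^ q ∈ P) :
    ((cyc ℓ σ : (PadicAlgCl ℓ)ˣ) : PadicAlgCl ℓ) = q := by
  have hl : (ℓ : ZBar) ∉ P := by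
    intro hlP
    have hcop : IsCoprime (p : ℤ) (ℓ : ℤ) := by
      rw [Nat.isCoprime_iff_coprime]
      exact (Nat.coprime_primes hp hℓ.out).2 hpl
    obtain ⟨a, b, hab⟩ := hcop
    apply hP.ne_top
    rw [Ideal.eq_top_iff_one]
    have h1 : (1 : ZBar) = (a : ZBar) * (p : ZBar) + (b : ZBar) * (ℓ : ZBar) := by
      have := congrArg (fun z : ℤ => (z : ZBar)) hab
      push_cast at this
      exact this.symm
    rw [h1]
    exact P.add_mem (P.mul_mem_left _ hpP) (P.mul_mem_left _ hlP)
  have h := Pool.Agent.Y115.Chi.chi_frob (F := ℚ) (ℓ := ℓ) hP hl (σ := σ) (q := q) hσ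
  show algebraMap ℚ_[ℓ] (PadicAlgCl ℓ) ((Pool.Agent.Y115.Chi.chi ℚ ℓ σ : ℤ_[ℓ]ˣ) : ℤ_[ℓ]) = q
  rw [h]
  simp

theorem cyc_inertia {p : ℕ} (hp : p.Prime) (hpl : p ≠ ℓ) {P : Ideal ZBar} (hP : P.IsPrime)
    (hpP : (p : ZBar) ∈ P) {σ : GQ} (hσ : ∀ x : ZBar, σ • x - x ∈ P) : cyc ℓ σ = 1 := by
  apply Units.ext
  have h := cyc_frobAt (ℓ := ℓ) (q := 1) hp hpl hP hpP (σ := σ) (fun x => by rw [pow_one]; exact hσ x)
  rw [h, Units.val_one, Nat.cast_one]

end cyc

end Pool.Agent.Q92.FP
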